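import Mathlib

/-!
# The first homology of a free product of pairs
-/

set_option autoImplicit false
open scoped TensorProduct

namespace Pool.Agent.H258.AM

open Monoid

universe u v

/-- the map on the first homology with coefficients in `M` -/
noncomputable def hMap (M : Type v) [AddCommGroup M] {G H : Type u} [Group G] [Group H]
    (f : G →* H) : Additive (Abelianization G) ⊗[ℤ] M →ₗ[ℤ] Additive (Abelianization H) ⊗[ℤ] M :=
  LinearMap.rTensor M (AddMonoidHom.toIntLinearMap (MonoidHom.toAdditive (Abelianization.map f)))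

section

variable (M : Type v) [AddCommGroup M] {G H K : Type u} [Group G] [Group H] [Group K]

theorem hMap_tmul (f : G →* H) (g : G) (m : M) :
    hMap M f (Additive.ofMul (Abelianization.of g) ⊗ₜ[ℤ] m) =
      Additive.ofMul (Abelianization.of (f g)) ⊗ₜ[ℤ] m := rfl

theorem tensor_ind {motive : Additive (Abelianization G) ⊗[ℤ] M → Prop}
    (x : Additive (Abelianization G) ⊗[ℤ] M) (zero : motive 0)
    (tmul : ∀ (g : G) (m : M), motive (Additive.ofMul (Abelianization.of g) ⊗ₜ[ℤ] m))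
    (add : ∀ x y, motive x → motive y → motive (x + y)) : motive x := by
  induction x using TensorProduct.induction_on with
  | zero => exact zero
  | tmul a m =>
    obtain ⟨g, hg⟩ : ∃ g : G, Abelianization.of g = a.toMul := by
      obtain ⟨g, hg⟩ := QuotientGroup.mk_surjective a.toMul
      exact ⟨g, hg⟩
    have h := tmul g m
    rw [hg] at h
    exact h
  | add x y hx hy => exact add x y hx hy

theorem hMap_comp (f : G →* H) (g : H →* K) (x : Additive (Abelianization G) ⊗[ℤ] M) :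
    hMap M (g.comp f) x = hMap M g (hMap M f x) := by
  induction x using tensor_ind with
  | zero => simp
  | tmul a m => rfl
  | add x y hx hy => rw [map_add, map_add, map_add, hx, hy]

theorem hMap_id (x : Additive (Abelianization G) ⊗[ℤ] M) :
    hMap M (MonoidHom.id G) x = x := by
  induction x using tensor_ind with
  | zero => simp
  | tmul a m => rfl
  | add x y hx hy => rw [map_add, hx, hy]

theorem hMap_one (x : Additive (Abelianization G) ⊗[ℤ] M) :
    hMap M (1 : G →* H) x = 0 := by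
  induction x using tensor_ind with
  | zero => simp
  | tmul a m =>
    rw [hMap_tmul, MonoidHom.one_apply, map_one]
    exact TensorProduct.zero_tmul _ _
  | add x y hx hy => rw [map_add, hx, hy, add_zero]

variable {G₁ G₂ : Type u} [Group G₁] [Group G₂]

/-- `G` is generated by the retracts `G₁` and `G₂`, each of which is in the kernel of the other
retraction -/
structure Split (i₁ : G₁ →* G) (i₂ : G₂ →* G) (ρ₁ : G →* G₁) (ρ₂ : G →* G₂) : Prop where
  top : i₁.range ⊔ i₂.range = ⊤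
  r11 : ρ₁.comp i₁ = MonoidHom.id G₁
  r22 : ρ₂.comp i₂ = MonoidHom.id G₂
  r12 : ρ₁.comp i₂ = 1
  r21 : ρ₂.comp i₁ = 1

variable {i₁ : G₁ →* G} {i₂ : G₂ →* G} {ρ₁ : G →* G₁} {ρ₂ : G →* G₂}

theorem Split.sum (h : Split i₁ i₂ ρ₁ ρ₂) (x : Additive (Abelianization G) ⊗[ℤ] M) :
    hMap M i₁ (hMap M ρ₁ x) + hMap M i₂ (hMap M ρ₂ x) = x := by
  have key : ∀ g : G, Abelianization.of (i₁ (ρ₁ g)) * Abelianization.of (i₂ (ρ₂ g)) =
      Abelianization.of g := by
    have hle : i₁.range ⊔ i₂.range ≤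
        ((Abelianization.of.comp (i₁.comp ρ₁)) * (Abelianization.of.comp (i₂.comp ρ₂))).eqLocus
          Abelianization.of := by
      refine sup_le ?_ ?_
      · rintro _ ⟨g, rfl⟩
        show Abelianization.of (i₁ ((ρ₁.comp i₁) g)) * Abelianization.of (i₂ ((ρ₂.comp i₁) g)) =
          Abelianization.of (i₁ g)
        rw [h.r11, h.r21]
        simp
      · rintro _ ⟨g, rfl⟩
        show Abelianization.of (i₁ ((ρ₁.comp i₂) g)) * Abelianization.of (i₂ ((ρ₂.comp i₂) g)) =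
          Abelianization.of (i₂ g)
        rw [h.r12, h.r22]
        simp
    intro g
    have hg : g ∈ i₁.range ⊔ i₂.range := by rw [h.top]; trivial
    exact hle hg
  induction x using tensor_ind with
  | zero => simp
  | tmul g m =>
    rw [hMap_tmul, hMap_tmul, hMap_tmul, hMap_tmul, ← TensorProduct.add_tmul, ← ofMul_mul, key]
  | add x y hx hy =>
    simp only [map_add]
    conv_rhs => rw [← hx, ← hy]
    abel

variable {F F₁ F₂ : Type u} [Group F] [Group F₁] [Group F₂]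
variable {j₁ : F₁ →* F} {j₂ : F₂ →* F} {σ₁ : F →* F₁} {σ₂ : F →* F₂}

theorem bij_iff (hG : Split i₁ i₂ ρ₁ ρ₂) (hF : Split j₁ j₂ σ₁ σ₂) (f : G →* F) (f₁ : G₁ →* F₁)
    (f₂ : G₂ →* F₂) (e₁ : f.comp i₁ = j₁.comp f₁) (e₂ : f.comp i₂ = j₂.comp f₂)
    (d₁ : σ₁.comp f = f₁.comp ρ₁) (d₂ : σ₂.comp f = f₂.comp ρ₂) :
    Function.Bijective (hMap M f) ↔
      Function.Bijective (hMap M f₁) ∧ Function.Bijective (hMap M f₂) := by
  have E₁ : ∀ x, hMap M f (hMap M i₁ x) = hMap M j₁ (hMap M f₁ x) := fun x => by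
    rw [← hMap_comp, e₁, hMap_comp]
  have E₂ : ∀ x, hMap M f (hMap M i₂ x) = hMap M j₂ (hMap M f₂ x) := fun x => by
    rw [← hMap_comp, e₂, hMap_comp]
  have D₁ : ∀ x, hMap M σ₁ (hMap M f x) = hMap M f₁ (hMap M ρ₁ x) := fun x => by
    rw [← hMap_comp, d₁, hMap_comp]
  have D₂ : ∀ x, hMap M σ₂ (hMap M f x) = hMap M f₂ (hMap M ρ₂ x) := fun x => by
    rw [← hMap_comp, d₂, hMap_comp]
  have R₁ : ∀ x, hMap M ρ₁ (hMap M i₁ x) = x := fun x => by
    rw [← hMap_comp, hG.r11, hMap_id]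
  have R₂ : ∀ x, hMap M ρ₂ (hMap M i₂ x) = x := fun x => by
    rw [← hMap_comp, hG.r22, hMap_id]
  have S₁ : ∀ x, hMap M σ₁ (hMap M j₁ x) = x := fun x => by
    rw [← hMap_comp, hF.r11, hMap_id]
  have S₂ : ∀ x, hMap M σ₂ (hMap M j₂ x) = x := fun x => by
    rw [← hMap_comp, hF.r22, hMap_id]
  constructor
  · rintro ⟨hi, hs⟩
    refine ⟨⟨?_, ?_⟩, ⟨?_, ?_⟩⟩
    · intro x y hxy
      have := hi ((E₁ x).trans ((congrArg (hMap M j₁) hxy).trans (E₁ y).symm))
      rw [← R₁ x, this, R₁]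
    · intro y
      obtain ⟨z, hz⟩ := hs (hMap M j₁ y)
      refine ⟨hMap M ρ₁ z, ?_⟩
      rw [← D₁, hz, S₁]
    · intro x y hxy
      have := hi ((E₂ x).trans ((congrArg (hMap M j₂) hxy).trans (E₂ y).symm))
      rw [← R₂ x, this, R₂]
    · intro y
      obtain ⟨z, hz⟩ := hs (hMap M j₂ y)
      refine ⟨hMap M ρ₂ z, ?_⟩
      rw [← D₂, hz, S₂]
  · rintro ⟨⟨hi₁, hs₁⟩, ⟨hi₂, hs₂⟩⟩
    constructor
    · intro x y hxy
      have h1 : hMap M ρ₁ x = hMap M ρ₁ y := hi₁ (by rw [← D₁, ← D₁, hxy])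
      have h2 : hMap M ρ₂ x = hMap M ρ₂ y := hi₂ (by rw [← D₂, ← D₂, hxy])
      rw [← hG.sum M x, ← hG.sum M y, h1, h2]
    · intro y
      obtain ⟨z₁, hz₁⟩ := hs₁ (hMap M σ₁ y)
      obtain ⟨z₂, hz₂⟩ := hs₂ (hMap M σ₂ y)
      refine ⟨hMap M i₁ z₁ + hMap M i₂ z₂, ?_⟩
      rw [map_add, E₁, E₂, hz₁, hz₂, hF.sum M y]

end

section coprod

variable {F₁ F₂ : Type u} [Group F₁] [Group F₂] (S₁ : Subgroup F₁) (S₂ : Subgroup F₂)

/-- the subgroup generated by `S₁` and `S₂` -/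
abbrev join : Subgroup (Coprod F₁ F₂) :=
  S₁.map (Coprod.inl : F₁ →* Coprod F₁ F₂) ⊔ S₂.map (Coprod.inr : F₂ →* Coprod F₁ F₂)

/-- the inclusion of `S₁` -/
def inc₁ : S₁ →* join S₁ S₂ :=
  (Coprod.inl.comp S₁.subtype).codRestrict _
    (fun s => (le_sup_left : S₁.map (Coprod.inl : F₁ →* Coprod F₁ F₂) ≤ join S₁ S₂) ⟨s, s.2, rfl⟩)

/-- the inclusion of `S₂` -/
def inc₂ : S₂ →* join S₁ S₂ :=
  (Coprod.inr.comp S₂.subtype).codRestrict _
    (fun s => (le_sup_right : S₂.map (Coprod.inr : F₂ →* Coprod F₁ F₂) ≤ join S₁ S₂) ⟨s, s.2, rfl⟩)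

theorem fst_mem (x : join S₁ S₂) : Coprod.fst (x : Coprod F₁ F₂) ∈ S₁ := by
  have : join S₁ S₂ ≤ S₁.comap Coprod.fst := by
    refine sup_le ?_ ?_
    · rintro _ ⟨s, hs, rfl⟩
      simpa using hs
    · rintro _ ⟨s, hs, rfl⟩
      simp
  exact this x.2

theorem snd_mem (x : join S₁ S₂) : Coprod.snd (x : Coprod F₁ F₂) ∈ S₂ := by
  have : join S₁ S₂ ≤ S₂.comap Coprod.snd := by
    refine sup_le ?_ ?_
    · rintro _ ⟨s, hs, rfl⟩
      simp
    · rintro _ ⟨s, hs, rfl⟩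
      simpa using hs
  exact this x.2

/-- the retraction to `S₁` -/
def ret₁ : join S₁ S₂ →* S₁ := (Coprod.fst.comp (Subgroup.subtype _)).codRestrict _ (fst_mem S₁ S₂)

/-- the retraction to `S₂` -/
def ret₂ : join S₁ S₂ →* S₂ := (Coprod.snd.comp (Subgroup.subtype _)).codRestrict _ (snd_mem S₁ S₂)

theorem split_top : Split (Coprod.inl : F₁ →* Coprod F₁ F₂) (Coprod.inr : F₂ →* Coprod F₁ F₂)
    Coprod.fst Coprod.snd where
  top := Coprod.range_inl_sup_range_inr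
  r11 := rfl
  r22 := rfl
  r12 := rfl
  r21 := rfl

theorem split_join : Split (inc₁ S₁ S₂) (inc₂ S₁ S₂) (ret₁ S₁ S₂) (ret₂ S₁ S₂) where
  top := by
    rw [eq_top_iff]
    rintro ⟨x, hx⟩ -
    have h1 : join S₁ S₂ ≤ ((inc₁ S₁ S₂).range ⊔ (inc₂ S₁ S₂).range).map (join S₁ S₂).subtype := by
      refine sup_le ?_ ?_
      · rintro _ ⟨s, hs, rfl⟩
        exact ⟨inc₁ S₁ S₂ ⟨s, hs⟩, Subgroup.mem_sup_left ⟨⟨s, hs⟩, rfl⟩, rfl⟩
      · rintro _ ⟨s, hs, rfl⟩
        exact ⟨inc₂ S₁ S₂ ⟨s, hs⟩, Subgroup.mem_sup_right ⟨⟨s, hs⟩, rfl⟩, rfl⟩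
    obtain ⟨y, hy, hyx⟩ := h1 hx
    have : y = ⟨x, hx⟩ := Subtype.ext hyx
    rw [← this]
    exact hy
  r11 := by
    ext s
    show Coprod.fst (Coprod.inl (s : F₁) : Coprod F₁ F₂) = s
    simp
  r22 := by
    ext s
    show Coprod.snd (Coprod.inr (s : F₂) : Coprod F₁ F₂) = s
    simp
  r12 := by
    ext s
    show Coprod.fst (Coprod.inr (s : F₂) : Coprod F₁ F₂) = 1
    simp
  r21 := by
    ext s
    show Coprod.snd (Coprod.inl (s : F₁) : Coprod F₁ F₂) = 1
    simp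

theorem hOne_coprod (M : Type v) [AddCommGroup M] :
    Function.Bijective (hMap M (join S₁ S₂).subtype) ↔
      Function.Bijective (hMap M S₁.subtype) ∧ Function.Bijective (hMap M S₂.subtype) :=
  bij_iff M (split_join S₁ S₂) split_top (join S₁ S₂).subtype S₁.subtype S₂.subtype rfl rfl rfl rfl

end coprod

end Pool.Agent.H258.AM
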