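import Pool.Agent.H258.AM.Free
import Pool.Agent.H258.AM.Homology

/-!
# Amalgams, locality and transport
-/

set_option autoImplicit false
open scoped TensorProduct

namespace Pool.Agent.H258.AM

open Monoid

universe u v

section amalgam

variable {A F₁ F₂ K : Type u} [Group A] [Group F₁] [Group F₂] [Group K]

/-- two homomorphisms as a family -/
def descFam (α : F₁ →* K) (β : F₂ →* K) : ∀ b, Fam F₁ F₂ b →* K
  | false => α
  | true => β

/-- the homomorphism from the amalgamated product given by two homomorphisms -/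
def desc (j₁ : A →* F₁) (j₂ : A →* F₂) (α : F₁ →* K) (β : F₂ →* K)
    (h : ∀ a, α (j₁ a) = β (j₂ a)) : PushoutI (famHom j₁ j₂) →* K :=
  PushoutI.lift (descFam α β) (α.comp j₁) (by
      intro b
      cases b with
      | false => rfl
      | true => ext a; exact (h a).symm)

theorem desc_embG (j₁ : A →* F₁) (j₂ : A →* F₂) (α : F₁ →* K) (β : F₂ →* K)
    (h : ∀ a, α (j₁ a) = β (j₂ a)) (x : F₁) : desc j₁ j₂ α β h (embG j₁ j₂ x) = α x := by
  exact PushoutI.lift_of (φ := famHom j₁ j₂) (descFam α β) (α.comp j₁) _ (i := false) x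

theorem desc_embB (j₁ : A →* F₁) (j₂ : A →* F₂) (α : F₁ →* K) (β : F₂ →* K)
    (h : ∀ a, α (j₁ a) = β (j₂ a)) (x : F₂) : desc j₁ j₂ α β h (embB j₁ j₂ x) = β x := by
  exact PushoutI.lift_of (φ := famHom j₁ j₂) (descFam α β) (α.comp j₁) _ (i := true) x

theorem amalgam_induction (j₁ : A →* F₁) (j₂ : A →* F₂) {H : Subgroup (PushoutI (famHom j₁ j₂))}
    (h₁ : ∀ x, embG j₁ j₂ x ∈ H) (h₂ : ∀ x, embB j₁ j₂ x ∈ H) (x : PushoutI (famHom j₁ j₂)) :
    x ∈ H := by
  induction x using PushoutI.induction_on with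
  | of i g =>
    cases i with
    | false => exact h₁ g
    | true => exact h₂ g
  | base h =>
    have := h₁ (j₁ h)
    have h3 : embG j₁ j₂ (j₁ h) = PushoutI.base (famHom j₁ j₂) h :=
      PushoutI.of_apply_eq_base (famHom j₁ j₂) false h
    rw [h3] at this
    exact this
  | mul x y hx hy => exact H.mul_mem hx hy

theorem desc_range (j₁ : A →* F₁) (j₂ : A →* F₂) (α : F₁ →* K) (β : F₂ →* K)
    (h : ∀ a, α (j₁ a) = β (j₂ a)) : (desc j₁ j₂ α β h).range = α.range ⊔ β.range := by
  apply le_antisymm
  · rintro _ ⟨x, rfl⟩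
    have := amalgam_induction j₁ j₂ (H := (α.range ⊔ β.range).comap (desc j₁ j₂ α β h))
      (fun x => by
        rw [Subgroup.mem_comap, desc_embG]
        exact Subgroup.mem_sup_left ⟨x, rfl⟩)
      (fun x => by
        rw [Subgroup.mem_comap, desc_embB]
        exact Subgroup.mem_sup_right ⟨x, rfl⟩) x
    exact this
  · refine sup_le ?_ ?_
    · rintro _ ⟨x, rfl⟩
      exact ⟨embG j₁ j₂ x, desc_embG _ _ _ _ _ _⟩
    · rintro _ ⟨x, rfl⟩
      exact ⟨embB j₁ j₂ x, desc_embB _ _ _ _ _ _⟩

theorem hom_ext' {j₁ : A →* F₁} {j₂ : A →* F₂} {f g : PushoutI (famHom j₁ j₂) →* K}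
    (h₁ : ∀ x, f (embG j₁ j₂ x) = g (embG j₁ j₂ x))
    (h₂ : ∀ x, f (embB j₁ j₂ x) = g (embB j₁ j₂ x)) (x) : f x = g x :=
  amalgam_induction j₁ j₂ (H := f.eqLocus g) h₁ h₂ x

theorem embG_injective (j₁ : A →* F₁) (j₂ : A →* F₂) (h₁ : Function.Injective j₁)
    (h₂ : Function.Injective j₂) : Function.Injective (embG j₁ j₂) := by
  have hinj : ∀ b, Function.Injective (famHom j₁ j₂ b) := by
    intro b
    cases b with
    | false => exact h₁
    | true => exact h₂
  exact PushoutI.of_injective hinj false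

theorem embB_injective (j₁ : A →* F₁) (j₂ : A →* F₂) (h₁ : Function.Injective j₁)
    (h₂ : Function.Injective j₂) : Function.Injective (embB j₁ j₂) := by
  have hinj : ∀ b, Function.Injective (famHom j₁ j₂ b) := by
    intro b
    cases b with
    | false => exact h₁
    | true => exact h₂
  exact PushoutI.of_injective hinj true

theorem depAt_amalgam {n : ℕ} (j₁ : A →* F₁) (j₂ : A →* F₂) (h₁ : Function.Injective j₁)
    (h₂ : Function.Injective j₂) (S₁ : Subgroup F₁) (S₂ : Subgroup F₂) (m₁ : ∀ a, j₁ a ∈ S₁)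
    (m₂ : ∀ a, j₂ a ∈ S₂) (d₁ : DepAt n S₁.subtype) (d₂ : DepAt n S₂.subtype) :
    DepAt n (S₁.map (embG j₁ j₂) ⊔ S₂.map (embB j₁ j₂)).subtype := by
  let t₁ : A →* S₁ := j₁.codRestrict S₁ m₁
  let t₂ : A →* S₂ := j₂.codRestrict S₂ m₂
  have ht₁ : Function.Injective t₁ := fun a b h => h₁ (congrArg Subtype.val h)
  have ht₂ : Function.Injective t₂ := fun a b h => h₂ (congrArg Subtype.val h)
  obtain ⟨Q, _, k, b₁, b₂, hk, e₁, e₂⟩ := exists_big (Nat.le_add_left 1 n) (embG t₁ t₂)
    (embB t₁ t₂) S₁.subtype S₂.subtype (embG_injective t₁ t₂ ht₁ ht₂)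
    (embB_injective t₁ t₂ ht₁ ht₂) ((depAt_iff _).1 d₁) ((depAt_iff _).1 d₂)
  have hagree : ∀ a, b₁ (j₁ a) = b₂ (j₂ a) := by
    intro a
    have x1 := e₁ (t₁ a)
    have x2 := e₂ (t₂ a)
    rw [embG_eq_embB] at x1
    exact x1.trans x2.symm
  have hagree' : ∀ a, ((embG j₁ j₂).comp S₁.subtype) (t₁ a) =
      ((embB j₁ j₂).comp S₂.subtype) (t₂ a) := fun a => embG_eq_embB j₁ j₂ a
  have hf : ConsAt (n + 1) (desc t₁ t₂ ((embG j₁ j₂).comp S₁.subtype)
      ((embB j₁ j₂).comp S₂.subtype) hagree') := by
    refine ConsAt.of_comp hk (desc j₁ j₂ b₁ b₂ hagree) ?_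
    intro x
    refine hom_ext' (f := (desc j₁ j₂ b₁ b₂ hagree).comp (desc t₁ t₂
      ((embG j₁ j₂).comp S₁.subtype) ((embB j₁ j₂).comp S₂.subtype) hagree')) (g := k) ?_ ?_ x
    · intro s
      rw [MonoidHom.comp_apply, desc_embG, MonoidHom.comp_apply, desc_embG]
      exact e₁ s
    · intro s
      rw [MonoidHom.comp_apply, desc_embB, MonoidHom.comp_apply, desc_embB]
      exact e₂ s
  refine depAt_subtype_of_range ((depAt_iff _).2 hf) ?_
  rw [desc_range, MonoidHom.range_comp, MonoidHom.range_comp, Subgroup.range_subtype,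
    Subgroup.range_subtype]

end amalgam

section locality

variable {C G K : Type u} [Group C] [Group G] [Group K]

theorem depAt_local {n : ℕ} (j : C →* G) (hj : Function.Injective j) (T : Subgroup (Coprod C K))
    (hT : (Coprod.inl : C →* Coprod C K).range ≤ T) (h : DepAt n T.subtype) :
    DepAt n ((Coprod.inl : G →* Coprod G K).range ⊔
      T.map (Coprod.map j (MonoidHom.id K))).subtype := by
  let t : C →* T := (Coprod.inl : C →* Coprod C K).codRestrict T (fun c => hT ⟨c, rfl⟩)
  have ht : Function.Injective t := fun a b h =>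
    Coprod.inl_injective (congrArg Subtype.val h)
  have hk : ConsAt (n + 1) (embG (embB j t) T.subtype) :=
    consAt_of _ _ (embB_injective j t hj ht) ((depAt_iff _).1 h)
  have hagree : ∀ c, (Coprod.inl : G →* Coprod G K) (j c) =
      ((Coprod.map j (MonoidHom.id K)).comp T.subtype) (t c) := fun c => rfl
  have hf : ConsAt (n + 1) (desc j t (Coprod.inl : G →* Coprod G K)
      ((Coprod.map j (MonoidHom.id K)).comp T.subtype) hagree) := by
    refine ConsAt.of_comp hk (Coprod.lift ((embG (embB j t) T.subtype).comp (embG j t))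
      ((embB (embB j t) T.subtype).comp Coprod.inr)) ?_
    have hmap : (Coprod.lift ((embG (embB j t) T.subtype).comp (embG j t))
        ((embB (embB j t) T.subtype).comp Coprod.inr)).comp (Coprod.map j (MonoidHom.id K)) =
        embB (embB j t) T.subtype := by
      apply Coprod.hom_ext
      · ext c
        simp only [MonoidHom.comp_apply, Coprod.map_apply_inl, Coprod.lift_apply_inl]
        rw [embG_eq_embB j t c]
        exact embG_eq_embB (embB j t) T.subtype (t c)
      · ext c
        simp only [MonoidHom.comp_apply, Coprod.map_apply_inr, Coprod.lift_apply_inr,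
          MonoidHom.id_apply]
    intro x
    refine hom_ext' (f := (Coprod.lift ((embG (embB j t) T.subtype).comp (embG j t))
      ((embB (embB j t) T.subtype).comp Coprod.inr)).comp (desc j t
        (Coprod.inl : G →* Coprod G K) ((Coprod.map j (MonoidHom.id K)).comp T.subtype) hagree))
      (g := embG (embB j t) T.subtype) ?_ ?_ x
    · intro s
      rw [MonoidHom.comp_apply, desc_embG, Coprod.lift_apply_inl]
      rfl
    · intro s
      rw [MonoidHom.comp_apply, desc_embB, embG_eq_embB (embB j t) T.subtype s]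
      exact DFunLike.congr_fun hmap (s : Coprod C K)
  refine depAt_subtype_of_range ((depAt_iff _).2 hf) ?_
  rw [desc_range, MonoidHom.range_comp, Subgroup.range_subtype]

end locality

section transport

theorem depAt_map {n : ℕ} {P F : Type*} [Group P] [Group F] (e : P ≃* F) (S : Subgroup P) :
    DepAt n (S.map (e : P →* F)).subtype ↔ DepAt n S.subtype := by
  have h1 : ConsAt (n + 1) e.toMonoidHom := ConsAt.of_bijective e.bijective
  have h2 : ConsAt (n + 1) (e.subgroupMap S).toMonoidHom :=
    ConsAt.of_bijective (e.subgroupMap S).bijective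
  rw [depAt_iff, depAt_iff]
  constructor
  · intro h
    refine ConsAt.of_comp (h.comp h2) e.toMonoidHom ?_
    intro x
    rfl
  · intro h
    have h3 : ConsAt (n + 1) (e.subgroupMap S).symm.toMonoidHom :=
      ConsAt.of_bijective (e.subgroupMap S).symm.bijective
    have h4 : ConsAt (n + 1) e.symm.toMonoidHom := ConsAt.of_bijective e.symm.bijective
    refine ConsAt.of_comp (h.comp h3) e.symm.toMonoidHom ?_
    intro x
    obtain ⟨y, rfl⟩ := (e.subgroupMap S).surjective x
    show e.symm (e (y : P)) = ((e.subgroupMap S).symm ((e.subgroupMap S) y) : P)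
    rw [e.symm_apply_apply, MulEquiv.symm_apply_apply]

theorem hMap_bijective_of_equiv (M : Type v) [AddCommGroup M] {P F : Type u} [Group P] [Group F]
    (e : P ≃* F) : Function.Bijective (hMap M e.toMonoidHom) := by
  constructor
  · intro x y h
    have h1 : ∀ x, hMap M e.symm.toMonoidHom (hMap M e.toMonoidHom x) = x := by
      intro x
      rw [← hMap_comp]
      have : e.symm.toMonoidHom.comp e.toMonoidHom = MonoidHom.id P := by
        ext x; exact e.symm_apply_apply x
      rw [this, hMap_id]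
    rw [← h1 x, h, h1]
  · intro y
    refine ⟨hMap M e.symm.toMonoidHom y, ?_⟩
    rw [← hMap_comp]
    have : e.toMonoidHom.comp e.symm.toMonoidHom = MonoidHom.id F := by
      ext x; exact e.apply_symm_apply x
    rw [this, hMap_id]

theorem hMap_map (M : Type v) [AddCommGroup M] {P F : Type u} [Group P] [Group F] (e : P ≃* F)
    (S : Subgroup P) :
    Function.Bijective (hMap M (S.map (e : P →* F)).subtype) ↔
      Function.Bijective (hMap M S.subtype) := by
  have h1 := hMap_bijective_of_equiv M e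
  have h2 := hMap_bijective_of_equiv M (e.subgroupMap S)
  have h3 : ∀ x, hMap M (S.map (e : P →* F)).subtype
      (hMap M (e.subgroupMap S).toMonoidHom x) = hMap M e.toMonoidHom (hMap M S.subtype x) := by
    intro x
    rw [← hMap_comp, ← hMap_comp]
    rfl
  have h4 : (hMap M (S.map (e : P →* F)).subtype : _ → _) ∘
      (hMap M (e.subgroupMap S).toMonoidHom : _ → _) =
      (hMap M e.toMonoidHom : _ → _) ∘ (hMap M S.subtype : _ → _) := funext h3
  rw [← Function.Bijective.of_comp_iff _ h2, h4, Function.Bijective.of_comp_iff' h1]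

end transport

end Pool.Agent.H258.AM
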