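import Mathlib

/-!
# Amalgamated products and conjugation invariant submonoids

`K i` are groups with homomorphisms `φ i : C → K i`, and `P` is a family of conjugation invariant
submonoids of `K i × W` (`W` a commutative monoid of weights) which agree on `C`.  The predicate
`D P l i z m` says that the word `l` in the letters of the groups `K i` is at least `z` with
weight `m`; it is generated by planar rules.  It is preserved by the reductions of words.
-/

set_option autoImplicit false

namespace Pool.Agent.H258.AM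

open Monoid

variable {ι : Type*} {K : ι → Type*} {C : Type*} [∀ i, Group (K i)] [Group C]

/-- conjugation invariant submonoids of the `K i × W` that agree on `C` -/
structure Cone (φ : ∀ i, C →* K i) (W : Type*) [AddCommMonoid W] where
  mem : ∀ i, K i → W → Prop
  one : ∀ i, mem i 1 0
  mul : ∀ {i x y m n}, mem i x m → mem i y n → mem i (x * y) (m + n)
  conj : ∀ {i x m} (g : K i), mem i x m → mem i (g * x * g⁻¹) m
  compat : ∀ {i} (j) {c m}, mem i (φ i c) m → mem j (φ j c) m

variable {φ : ∀ i, C →* K i} {W : Type*} [AddCommMonoid W]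

/-- `D P l i z m`: the word `l` is at least `z ∈ K i`, with weight `m` -/
inductive D (P : Cone φ W) : List (Σ i, K i) → ∀ i, K i → W → Prop
  | nil {i : ι} {z : K i} {m : W} : P.mem i z⁻¹ m → D P [] i z m
  | snoc {w : List (Σ i, K i)} {i : ι} {z : K i} {m : W} (x : K i) :
      D P w i z m → D P (w ++ [⟨i, x⟩]) i (z * x) m
  | glue {u v : List (Σ i, K i)} {i j : ι} {z : K i} {c : C} {m n : W} :
      D P u i z m → D P v j (φ j c) n → D P (u ++ v) i (z * φ i c) (m + n)

variable {P : Cone φ W}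

theorem D.cast {l l' : List (Σ i, K i)} {i : ι} {z z' : K i} {m m' : W} (h : D P l i z m)
    (hl : l = l') (hz : z = z') (hm : m = m') : D P l' i z' m' := by
  subst hl hz hm; exact h

theorem D.one (i : ι) : D P [] i 1 0 := D.nil (by rw [inv_one]; exact P.one i)

theorem nil_inv {l : List (Σ i, K i)} {i : ι} {z : K i} {m : W} (h : D P l i z m) :
    l = [] → P.mem i z⁻¹ m := by
  induction h with
  | nil h => intro _; exact h
  | snoc x h ih => intro hl; simp at hl
  | @glue u v i j z c m n h1 h2 ih1 ih2 =>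
    intro hl
    obtain ⟨rfl, rfl⟩ := List.append_eq_nil_iff.1 hl
    have e1 := ih1 rfl
    have e2 := ih2 rfl
    rw [← map_inv] at e2
    have e3 := P.mul (P.compat i e2) e1
    rw [map_inv, ← mul_inv_rev, add_comm] at e3
    exact e3

/-- lowering `z` -/
theorem D.down {l : List (Σ i, K i)} {i : ι} {z : K i} {m : W} (h : D P l i z m) :
    ∀ {q : K i} {n : W}, P.mem i q⁻¹ n → D P l i (q * z) (n + m) := by
  induction h with
  | @nil i z m h =>
    intro q n hq
    refine D.nil ?_
    have := P.mul h hq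
    rw [← mul_inv_rev, add_comm] at this
    exact this
  | @snoc w i z m x h ih =>
    intro q n hq
    exact (D.snoc x (ih hq)).cast rfl (mul_assoc _ _ _) rfl
  | @glue u v i j z c m n h1 h2 ih1 ih2 =>
    intro q n' hq
    exact (D.glue (ih1 hq) h2).cast rfl (mul_assoc _ _ _) (add_assoc _ _ _)

theorem D.down' {l : List (Σ i, K i)} {i : ι} {z : K i} {m : W} (h : D P l i z m)
    {q : K i} {n : W} (hq : P.mem i q⁻¹ n) : D P l i (z * q) (n + m) := by
  have h1 : P.mem i (z * q * z⁻¹)⁻¹ n := by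
    have := P.conj z hq
    rwa [show (z * q * z⁻¹)⁻¹ = z * q⁻¹ * z⁻¹ by group]
  exact (h.down h1).cast rfl (by group) rfl

/-- elements of `C` can be considered in any of the groups -/
theorem D.trans' {l : List (Σ i, K i)} {j : ι} {c : C} {m : W} (h : D P l j (φ j c) m) (i : ι) :
    D P l i (φ i c) m :=
  (D.glue (D.one i) h).cast rfl (one_mul _) (zero_add _)

theorem D.concat {v : List (Σ i, K i)} {i : ι} {z' : K i} {n : W} (h : D P v i z' n) :
    ∀ {u : List (Σ i, K i)} {z : K i} {m : W}, D P u i z m → D P (u ++ v) i (z * z') (m + n) := by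
  induction h with
  | @nil i z' n h =>
    intro u z m hu
    exact (hu.down' h).cast (by simp) rfl (add_comm _ _)
  | @snoc w i z' n x h ih =>
    intro u z m hu
    exact (D.snoc x (ih hu)).cast (by simp) (mul_assoc _ _ _) rfl
  | @glue v1 v2 i j z' c n1 n2 h1 h2 ih1 ih2 =>
    intro u z m hu
    exact (D.glue (ih1 hu) h2).cast (by simp) (mul_assoc _ _ _) (add_assoc _ _ _)

theorem D.letter {i : ι} (x : K i) : D P [⟨i, x⟩] i x 0 :=
  (D.snoc x (D.one i)).cast (by simp) (one_mul _) rfl

theorem D.cons {v : List (Σ i, K i)} {i : ι} {z : K i} {m : W} (x : K i) (h : D P v i z m) :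
    D P (⟨i, x⟩ :: v) i (x * z) m :=
  (h.concat (D.letter x)).cast rfl rfl (zero_add _)

/-- inversion for the last letter -/
theorem right_inv {l : List (Σ i, K i)} {i : ι} {z : K i} {m : W} (h : D P l i z m) :
    ∀ (a : Σ i, K i) (w : List (Σ i, K i)), l = w ++ [a] →
      (∃ x : K i, a = ⟨i, x⟩ ∧ D P w i (z * x⁻¹) m) ∨
      ∃ v1 v2 c z1 m1 m2, w = v1 ++ v2 ∧ D P v1 i z1 m1 ∧
        D P v2 a.1 (φ a.1 c * a.2⁻¹) m2 ∧ z = z1 * φ i c ∧ m = m1 + m2 := by
  induction h with
  | nil h => intro a w hl; simp at hl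
  | @snoc w' i z' m x h ih =>
    intro a w hl
    obtain ⟨rfl, h2⟩ := List.append_inj' hl rfl
    simp only [List.cons.injEq, and_true] at h2
    exact Or.inl ⟨x, h2.symm, h.cast rfl (by group) rfl⟩
  | @glue u v i j z1 c' m n h1 h2 ih1 ih2 =>
    intro a w hl
    rcases List.eq_nil_or_concat v with rfl | ⟨v'', b, rfl⟩
    · rw [List.append_nil] at hl
      have e := nil_inv h2 rfl
      rw [← map_inv] at e
      rcases ih1 a w hl with ⟨x, hx, hD⟩ | ⟨v1, v2, c, z0, m1, m2, hw, hD1, hD2, hz, hm⟩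
      · left
        refine ⟨x, hx, ?_⟩
        have e1 : P.mem i (z1 * φ i c' * z1⁻¹)⁻¹ n := by
          have := P.conj z1 (P.compat i e)
          rwa [show (z1 * φ i c' * z1⁻¹)⁻¹ = z1 * φ i c'⁻¹ * z1⁻¹ by rw [map_inv]; group]
        exact (hD.down e1).cast rfl (by group) (add_comm _ _)
      · right
        refine ⟨v1, v2, c * c', z0, m1, n + m2, hw, hD1, ?_, ?_, ?_⟩
        · have e1 : P.mem a.1 (φ a.1 c * φ a.1 c' * (φ a.1 c)⁻¹)⁻¹ n := by
            have := P.conj (φ a.1 c) (P.compat a.1 e)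
            rwa [show (φ a.1 c * φ a.1 c' * (φ a.1 c)⁻¹)⁻¹ =
              φ a.1 c * φ a.1 c'⁻¹ * (φ a.1 c)⁻¹ by rw [map_inv]; group]
          exact (hD2.down e1).cast rfl (by rw [map_mul]; group) rfl
        · rw [hz, map_mul, mul_assoc]
        · rw [hm, add_comm n m2, add_assoc]
    · rw [List.concat_eq_append] at *
      rw [← List.append_assoc] at hl
      obtain ⟨rfl, h3⟩ := List.append_inj' hl rfl
      simp only [List.cons.injEq, and_true] at h3
      subst h3
      rcases ih2 b v'' rfl with ⟨x, hx, hD⟩ | ⟨v3, v4, d, z3, m1, m2, hw, hD1, hD2, hz, hm⟩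
      · right
        subst hx
        exact ⟨u, v'', c', z1, m, n, rfl, h1, hD, rfl, rfl⟩
      · right
        have hz3 : z3 = φ j (c' * d⁻¹) := by
          rw [map_mul, map_inv, hz]; group
        subst hz3
        refine ⟨u ++ v3, v4, d, _, _, _, by rw [hw, List.append_assoc], D.glue h1 hD1, hD2, ?_, ?_⟩
        · rw [mul_assoc, ← map_mul, inv_mul_cancel_right]
        · rw [hm, add_assoc]

/-- inversion for the first letter -/
theorem left_inv {l : List (Σ i, K i)} {i : ι} {z : K i} {m : W} (h : D P l i z m) :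
    ∀ (a : Σ i, K i) (v : List (Σ i, K i)), l = a :: v →
      (∃ y : K i, a = ⟨i, y⟩ ∧ D P v i (y⁻¹ * z) m) ∨
      ∃ v1 v2 c z2 m1 m2, v = v1 ++ v2 ∧ D P v1 a.1 (a.2⁻¹ * φ a.1 c) m1 ∧
        D P v2 i z2 m2 ∧ z = φ i c * z2 ∧ m = m1 + m2 := by
  induction h with
  | nil h => intro a v hl; simp at hl
  | @snoc w' i z' m x h ih =>
    intro a v hl
    cases w' with
    | nil =>
      simp only [List.nil_append, List.cons.injEq] at hl
      obtain ⟨rfl, rfl⟩ := hl
      left
      refine ⟨x, rfl, D.nil ?_⟩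
      have := P.conj x⁻¹ (nil_inv h rfl)
      rwa [show (x⁻¹ * (z' * x))⁻¹ = x⁻¹ * z'⁻¹ * x⁻¹⁻¹ by group]
    | cons b w'' =>
      simp only [List.cons_append, List.cons.injEq] at hl
      obtain ⟨rfl, rfl⟩ := hl
      rcases ih b w'' rfl with ⟨y, hy, hD⟩ | ⟨v1, v2, c, z2, m1, m2, hw, hD1, hD2, hz, hm⟩
      · left
        exact ⟨y, hy, (D.snoc x hD).cast rfl (mul_assoc _ _ _) rfl⟩
      · right
        exact ⟨v1, v2 ++ [⟨i, x⟩], c, z2 * x, m1, m2, by rw [hw, List.append_assoc], hD1,
          D.snoc x hD2, by rw [hz, mul_assoc], hm⟩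
  | @glue u v' i k z1 c' m n h1 h2 ih1 ih2 =>
    intro a v hl
    cases u with
    | nil =>
      rw [List.nil_append] at hl
      have e := nil_inv h1 rfl
      rcases ih2 a v hl with ⟨y, hy, hD⟩ | ⟨v1, v2, c, z2, m1, m2, hw, hD1, hD2, hz, hm⟩
      · right
        subst hy
        refine ⟨v, [], c', (φ i c')⁻¹ * z1 * φ i c', n, m, by simp, hD, D.nil ?_, by group,
          add_comm _ _⟩
        have := P.conj (φ i c')⁻¹ e
        rwa [show ((φ i c')⁻¹ * z1 * φ i c')⁻¹ = (φ i c')⁻¹ * z1⁻¹ * (φ i c')⁻¹⁻¹ by group]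
      · right
        have hz2 : z2 = φ k (c⁻¹ * c') := by
          rw [map_mul, map_inv, hz]; group
        subst hz2
        have hD2' := hD2.trans' i
        have e1 : P.mem i ((φ i c)⁻¹ * z1 * φ i c)⁻¹ m := by
          have := P.conj (φ i c)⁻¹ e
          rwa [show ((φ i c)⁻¹ * z1 * φ i c)⁻¹ = (φ i c)⁻¹ * z1⁻¹ * (φ i c)⁻¹⁻¹ by group]
        refine ⟨v1, v2, c, _, m1, _, hw, hD1, hD2'.down e1, ?_, ?_⟩
        · rw [map_mul, map_inv]; group
        · rw [hm, ← add_assoc, ← add_assoc, add_comm m m1]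
    | cons b u' =>
      simp only [List.cons_append, List.cons.injEq] at hl
      obtain ⟨rfl, rfl⟩ := hl
      rcases ih1 b u' rfl with ⟨y, hy, hD⟩ | ⟨v1, v2, c, z2, m1, m2, hw, hD1, hD2, hz, hm⟩
      · left
        exact ⟨y, hy, (D.glue hD h2).cast rfl (mul_assoc _ _ _) rfl⟩
      · right
        exact ⟨v1, v2 ++ v', c, z2 * φ i c', m1, m2 + n, by rw [hw, List.append_assoc], hD1,
          D.glue hD2 h2, by rw [hz, mul_assoc], by rw [hm, add_assoc]⟩

end Pool.Agent.H258.AM
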