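import Pool.Agent.H258.AM.Main

/-!
# Free products and amalgams of pairs
-/

set_option autoImplicit false

namespace Pool.Agent.H258.AM

open Monoid

universe u

theorem ConsAt.comp {r : ℕ} {G H K : Type*} [Group G] [Group H] [Group K] {f : G →* H}
    {g : H →* K} (hg : ConsAt r g) (hf : ConsAt r f) : ConsAt r (g.comp f) := by
  intro x hx
  exact hf x (hg (fun i => f (x i)) hx)

theorem ConsAt.of_comp {r : ℕ} {G H K : Type*} [Group G] [Group H] [Group K] {f : G →* H}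
    {k : G →* K} (hk : ConsAt r k) (g : H →* K) (h : ∀ x, g (f x) = k x) : ConsAt r f := by
  intro x hx
  apply hk x
  obtain ⟨c, hc⟩ := hx
  refine ⟨fun i => g (c i), ?_⟩
  have := congrArg g hc
  rw [map_one, map_list_prod, List.map_ofFn] at this
  rw [← this]
  congr 2
  funext i
  simp [h]

theorem ConsAt.of_bijective {r : ℕ} {G H : Type*} [Group G] [Group H] {f : G →* H}
    (hf : Function.Bijective f) : ConsAt r f := by
  let e := MulEquiv.ofBijective f hf
  refine ConsAt.of_comp (k := MonoidHom.id G) ?_ e.symm.toMonoidHom (fun x => e.symm_apply_apply x)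
  intro x hx
  exact hx

/-- `f` reflects dependence on `n` elements -/
def DepAt (n : ℕ) {G H : Type*} [Group G] [Group H] (f : G →* H) : Prop :=
  ∀ (a : G) (g : Fin n → G),
    (∃ c : Fin n → H, f a = (List.ofFn fun i => c i * f (g i) * (c i)⁻¹).prod) →
    ∃ c : Fin n → G, a = (List.ofFn fun i => c i * g i * (c i)⁻¹).prod

theorem conj_prod {G : Type*} [Group G] (x : G) {n : ℕ} (g c : Fin n → G) :
    x * (List.ofFn fun i => c i * g i * (c i)⁻¹).prod * x⁻¹ =
      (List.ofFn fun i => (x * c i) * g i * (x * c i)⁻¹).prod := by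
  have h := map_list_prod (MulAut.conj x).toMonoidHom (List.ofFn fun i => c i * g i * (c i)⁻¹)
  rw [List.map_ofFn] at h
  have h1 : (MulAut.conj x).toMonoidHom (List.ofFn fun i => c i * g i * (c i)⁻¹).prod =
      x * (List.ofFn fun i => c i * g i * (c i)⁻¹).prod * x⁻¹ := rfl
  rw [← h1, h]
  congr 2
  funext i
  show x * (c i * g i * (c i)⁻¹) * x⁻¹ = _
  group

theorem depAt_iff {n : ℕ} {G H : Type*} [Group G] [Group H] (f : G →* H) :
    DepAt n f ↔ ConsAt (n + 1) f := by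
  constructor
  · intro h g hg
    obtain ⟨c, hc⟩ := hg
    rw [List.ofFn_succ, List.prod_cons] at hc
    have h1 : f (g 0)⁻¹ = (List.ofFn fun i : Fin n =>
        ((c 0)⁻¹ * c i.succ) * f (g i.succ) * ((c 0)⁻¹ * c i.succ)⁻¹).prod := by
      rw [← conj_prod (c 0)⁻¹ (fun i : Fin n => f (g i.succ)) (fun i => c i.succ)]
      have h2 : (List.ofFn fun i : Fin n => c i.succ * f (g i.succ) * (c i.succ)⁻¹).prod =
          (c 0 * f (g 0) * (c 0)⁻¹)⁻¹ := (inv_eq_of_mul_eq_one_right hc).symm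
      rw [h2, map_inv]
      group
    obtain ⟨x, hx⟩ := h (g 0)⁻¹ (fun i => g i.succ) ⟨_, h1⟩
    refine ⟨Fin.cons 1 x, ?_⟩
    rw [List.ofFn_succ, List.prod_cons]
    simp only [Fin.cons_zero, Fin.cons_succ]
    rw [← hx]
    group
  · intro h a g hg
    obtain ⟨c, hc⟩ := hg
    obtain ⟨x, hx⟩ := h (Fin.cons a⁻¹ g) ⟨Fin.cons 1 c, by
      rw [List.ofFn_succ, List.prod_cons]
      simp only [Fin.cons_zero, Fin.cons_succ]
      rw [← hc, map_inv]
      group⟩
    rw [List.ofFn_succ, List.prod_cons] at hx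
    simp only [Fin.cons_zero, Fin.cons_succ] at hx
    refine ⟨fun i => (x 0)⁻¹ * x i.succ, ?_⟩
    rw [← conj_prod (x 0)⁻¹ g (fun i => x i.succ)]
    have h2 : (List.ofFn fun i : Fin n => x i.succ * g i * (x i.succ)⁻¹).prod =
        (x 0 * a⁻¹ * (x 0)⁻¹)⁻¹ := (inv_eq_of_mul_eq_one_right hx).symm
    rw [h2]
    group

/-- if `P → F` reflects dependence, so does the inclusion of its range -/
theorem depAt_subtype_of_range {n : ℕ} {P F : Type*} [Group P] [Group F] {f : P →* F}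
    (hf : DepAt n f) {S : Subgroup F} (hS : f.range = S) : DepAt n S.subtype := by
  subst hS
  intro a g h
  obtain ⟨_, a, rfl⟩ := a
  choose g' hg' using fun i => (g i).2
  obtain ⟨c, hc⟩ := hf a g' (by
    obtain ⟨c, hc⟩ := h
    refine ⟨c, ?_⟩
    have h1 : ∀ i, f (g' i) = f.range.subtype (g i) := hg'
    simp only [h1]
    exact hc)
  refine ⟨fun i => f.rangeRestrict (c i), ?_⟩
  apply Subtype.ext
  have h2 := congrArg f hc
  have h3 : ((List.ofFn fun i => f.rangeRestrict (c i) * g i * (f.rangeRestrict (c i))⁻¹).prod :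
      f.range) = f.rangeRestrict (List.ofFn fun i => c i * g' i * (c i)⁻¹).prod := by
    rw [map_list_prod, List.map_ofFn]
    congr 2
    funext i
    have h4 : g i = f.rangeRestrict (g' i) := Subtype.ext (hg' i).symm
    rw [h4]
    simp
  rw [h3]
  exact h2

section coprod

/-- the general step: a group `P` with homomorphisms from `A₁` and `A₂`, where `A₁ → B₁` and
`A₂ → B₂` reflect products of conjugacy classes -/
theorem exists_big {r : ℕ} (hr : 1 ≤ r) {P A₁ A₂ B₁ B₂ : Type u} [Group P] [Group A₁] [Group A₂]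
    [Group B₁] [Group B₂] (i₁ : A₁ →* P) (i₂ : A₂ →* P) (s₁ : A₁ →* B₁) (s₂ : A₂ →* B₂)
    (hi₁ : Function.Injective i₁) (hi₂ : Function.Injective i₂) (h₁ : ConsAt r s₁)
    (h₂ : ConsAt r s₂) :
    ∃ (Q : Type u) (_ : Group Q) (k : P →* Q) (b₁ : B₁ →* Q) (b₂ : B₂ →* Q), ConsAt r k ∧
      (∀ a, b₁ (s₁ a) = k (i₁ a)) ∧ (∀ a, b₂ (s₂ a) = k (i₂ a)) := by
  have hk₁ : ConsAt r (embG i₁ s₁) := consAt_of i₁ s₁ hi₁ h₁
  have hj₂ : Function.Injective ((embG i₁ s₁).comp i₂) := (hk₁.injective hr).comp hi₂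
  have hk₂ : ConsAt r (embG ((embG i₁ s₁).comp i₂) s₂) := consAt_of _ _ hj₂ h₂
  refine ⟨PushoutI (famHom ((embG i₁ s₁).comp i₂) s₂), inferInstance,
    (embG ((embG i₁ s₁).comp i₂) s₂).comp (embG i₁ s₁),
    (embG ((embG i₁ s₁).comp i₂) s₂).comp (embB i₁ s₁), embB ((embG i₁ s₁).comp i₂) s₂,
    hk₂.comp hk₁, ?_, ?_⟩
  · intro a
    exact congrArg (embG ((embG i₁ s₁).comp i₂) s₂) (embG_eq_embB i₁ s₁ a).symm
  · intro a
    exact (embG_eq_embB ((embG i₁ s₁).comp i₂) s₂ a).symm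

theorem consAt_coprod' {r : ℕ} (hr : 1 ≤ r) {A₁ A₂ B₁ B₂ : Type u} [Group A₁] [Group A₂]
    [Group B₁] [Group B₂] (s₁ : A₁ →* B₁) (s₂ : A₂ →* B₂) (h₁ : ConsAt r s₁)
    (h₂ : ConsAt r s₂) : ConsAt r (Coprod.map s₁ s₂) := by
  obtain ⟨Q, _, k, b₁, b₂, hk, e₁, e₂⟩ := exists_big hr (Coprod.inl : A₁ →* Coprod A₁ A₂)
    (Coprod.inr : A₂ →* Coprod A₁ A₂) s₁ s₂ Coprod.inl_injective Coprod.inr_injective h₁ h₂
  refine ConsAt.of_comp hk (Coprod.lift b₁ b₂) ?_
  intro x
  have : (Coprod.lift b₁ b₂).comp (Coprod.map s₁ s₂) = k := by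
    apply Coprod.hom_ext
    · ext s
      simp only [MonoidHom.comp_apply, Coprod.map_apply_inl, Coprod.lift_apply_inl]
      exact e₁ s
    · ext s
      simp only [MonoidHom.comp_apply, Coprod.map_apply_inr, Coprod.lift_apply_inr]
      exact e₂ s
  exact DFunLike.congr_fun this x

variable {F₁ F₂ : Type u} [Group F₁] [Group F₂]

theorem consAt_coprod {r : ℕ} (hr : 1 ≤ r) (S₁ : Subgroup F₁) (S₂ : Subgroup F₂)
    (h₁ : ConsAt r S₁.subtype) (h₂ : ConsAt r S₂.subtype) :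
    ConsAt r (Coprod.map S₁.subtype S₂.subtype) :=
  consAt_coprod' hr S₁.subtype S₂.subtype h₁ h₂

theorem range_coprod_map (S₁ : Subgroup F₁) (S₂ : Subgroup F₂) :
    (Coprod.map S₁.subtype S₂.subtype).range =
      S₁.map (Coprod.inl : F₁ →* Coprod F₁ F₂) ⊔ S₂.map (Coprod.inr : F₂ →* Coprod F₁ F₂) := by
  rw [Coprod.range_eq, Coprod.map_comp_inl, Coprod.map_comp_inr, MonoidHom.range_comp,
    MonoidHom.range_comp, Subgroup.range_subtype, Subgroup.range_subtype]

theorem depAt_coprod {n : ℕ} (S₁ : Subgroup F₁) (S₂ : Subgroup F₂) :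
    DepAt n (S₁.map (Coprod.inl : F₁ →* Coprod F₁ F₂) ⊔
      S₂.map (Coprod.inr : F₂ →* Coprod F₁ F₂)).subtype ↔
    DepAt n S₁.subtype ∧ DepAt n S₂.subtype := by
  constructor
  · intro h
    constructor
    · intro a g hg
      obtain ⟨c, hc⟩ := hg
      have hle : S₁.map (Coprod.inl : F₁ →* Coprod F₁ F₂) ≤
        (S₁.map (Coprod.inl : F₁ →* Coprod F₁ F₂) ⊔ S₂.map (Coprod.inr : F₂ →* Coprod F₁ F₂)) :=
        le_sup_left
      let i₁ : S₁ →* ((S₁.map (Coprod.inl : F₁ →* Coprod F₁ F₂) ⊔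
          S₂.map (Coprod.inr : F₂ →* Coprod F₁ F₂) : Subgroup (Coprod F₁ F₂))) :=
        (Coprod.inl.comp S₁.subtype).codRestrict _ (fun s => hle ⟨s, s.2, rfl⟩)
      have hmem : ∀ x : ((S₁.map (Coprod.inl : F₁ →* Coprod F₁ F₂) ⊔
          S₂.map (Coprod.inr : F₂ →* Coprod F₁ F₂) : Subgroup (Coprod F₁ F₂))),
          Coprod.fst (x : Coprod F₁ F₂) ∈ S₁ := by
        rintro ⟨x, hx⟩
        have : (S₁.map (Coprod.inl : F₁ →* Coprod F₁ F₂) ⊔
          S₂.map (Coprod.inr : F₂ →* Coprod F₁ F₂)) ≤ S₁.comap Coprod.fst := by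
          refine sup_le ?_ ?_
          · rintro _ ⟨s, hs, rfl⟩
            simpa using hs
          · rintro _ ⟨s, hs, rfl⟩
            simp
        exact this hx
      let ρ : ((S₁.map (Coprod.inl : F₁ →* Coprod F₁ F₂) ⊔
          S₂.map (Coprod.inr : F₂ →* Coprod F₁ F₂) : Subgroup (Coprod F₁ F₂))) →* S₁ :=
        (Coprod.fst.comp (Subgroup.subtype _)).codRestrict _ hmem
      have hρ : ∀ s, ρ (i₁ s) = s := by
        intro s
        apply Subtype.ext
        show Coprod.fst (Coprod.inl (s : F₁) : Coprod F₁ F₂) = _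
        simp
      obtain ⟨d, hd⟩ := h (i₁ a) (fun i => i₁ (g i)) ⟨fun i => Coprod.inl (c i), by
        show (Coprod.inl (a : F₁) : Coprod F₁ F₂) = _
        have h1 : (a : F₁) = _ := hc
        rw [h1, map_list_prod, List.map_ofFn]
        congr 2
        funext i
        show Coprod.inl (c i * (g i : F₁) * (c i)⁻¹) =
          Coprod.inl (c i) * (Coprod.inl (g i : F₁)) * (Coprod.inl (c i))⁻¹
        rw [map_mul, map_mul, map_inv]⟩
      refine ⟨fun i => ρ (d i), ?_⟩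
      have h2 := congrArg ρ hd
      rw [hρ, map_list_prod, List.map_ofFn] at h2
      rw [h2]
      congr 2
      funext i
      show ρ (d i * i₁ (g i) * (d i)⁻¹) = _
      rw [map_mul, map_mul, hρ, map_inv]
    · intro a g hg
      obtain ⟨c, hc⟩ := hg
      have hle : S₂.map (Coprod.inr : F₂ →* Coprod F₁ F₂) ≤
        (S₁.map (Coprod.inl : F₁ →* Coprod F₁ F₂) ⊔ S₂.map (Coprod.inr : F₂ →* Coprod F₁ F₂)) :=
        le_sup_right
      let i₁ : S₂ →* ((S₁.map (Coprod.inl : F₁ →* Coprod F₁ F₂) ⊔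
          S₂.map (Coprod.inr : F₂ →* Coprod F₁ F₂) : Subgroup (Coprod F₁ F₂))) :=
        (Coprod.inr.comp S₂.subtype).codRestrict _ (fun s => hle ⟨s, s.2, rfl⟩)
      have hmem : ∀ x : ((S₁.map (Coprod.inl : F₁ →* Coprod F₁ F₂) ⊔
          S₂.map (Coprod.inr : F₂ →* Coprod F₁ F₂) : Subgroup (Coprod F₁ F₂))),
          Coprod.snd (x : Coprod F₁ F₂) ∈ S₂ := by
        rintro ⟨x, hx⟩
        have : (S₁.map (Coprod.inl : F₁ →* Coprod F₁ F₂) ⊔
          S₂.map (Coprod.inr : F₂ →* Coprod F₁ F₂)) ≤ S₂.comap Coprod.snd := by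
          refine sup_le ?_ ?_
          · rintro _ ⟨s, hs, rfl⟩
            simp
          · rintro _ ⟨s, hs, rfl⟩
            simpa using hs
        exact this hx
      let ρ : ((S₁.map (Coprod.inl : F₁ →* Coprod F₁ F₂) ⊔
          S₂.map (Coprod.inr : F₂ →* Coprod F₁ F₂) : Subgroup (Coprod F₁ F₂))) →* S₂ :=
        (Coprod.snd.comp (Subgroup.subtype _)).codRestrict _ hmem
      have hρ : ∀ s, ρ (i₁ s) = s := by
        intro s
        apply Subtype.ext
        show Coprod.snd (Coprod.inr (s : F₂) : Coprod F₁ F₂) = _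
        simp
      obtain ⟨d, hd⟩ := h (i₁ a) (fun i => i₁ (g i)) ⟨fun i => Coprod.inr (c i), by
        show (Coprod.inr (a : F₂) : Coprod F₁ F₂) = _
        have h1 : (a : F₂) = _ := hc
        rw [h1, map_list_prod, List.map_ofFn]
        congr 2
        funext i
        show Coprod.inr (c i * (g i : F₂) * (c i)⁻¹) =
          Coprod.inr (c i) * (Coprod.inr (g i : F₂)) * (Coprod.inr (c i))⁻¹
        rw [map_mul, map_mul, map_inv]⟩
      refine ⟨fun i => ρ (d i), ?_⟩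
      have h2 := congrArg ρ hd
      rw [hρ, map_list_prod, List.map_ofFn] at h2
      rw [h2]
      congr 2
      funext i
      show ρ (d i * i₁ (g i) * (d i)⁻¹) = _
      rw [map_mul, map_mul, hρ, map_inv]
  · rintro ⟨h₁, h₂⟩
    have h := consAt_coprod (Nat.le_add_left 1 n) S₁ S₂ ((depAt_iff _).1 h₁) ((depAt_iff _).1 h₂)
    exact depAt_subtype_of_range ((depAt_iff _).2 h) (range_coprod_map S₁ S₂)

end coprod

end Pool.Agent.H258.AM
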