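import Pool.Graph.R_seed8.Results.MP_e9d015_al.FrobeniusSystems

/-!
# Semidirect products with a cyclic group of prime power order
-/

set_option autoImplicit false

namespace Pool.Agent.H258.AM.Frob

open Polynomial Pool.Agent.Results.MP_e9d015_al.FrobeniusSystems

universe u

variable (p k : ℕ) [Fact p.Prime] {V : Type u} [CommGroup V]

/-- the automorphism as an endomorphism of the additive group -/
def al (φ : Multiplicative (ZMod (p ^ (k + 1))) →* MulAut V) : Module.End ℤ (Additive V) :=
  (MonoidHom.toAdditive (φ (Multiplicative.ofAdd 1)).toMonoidHom).toIntLinearMap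

theorem al_apply (φ : Multiplicative (ZMod (p ^ (k + 1))) →* MulAut V) (v : V) :
    al p k φ (Additive.ofMul v) = Additive.ofMul (φ (Multiplicative.ofAdd 1) v) := rfl

theorem al_pow (φ : Multiplicative (ZMod (p ^ (k + 1))) →* MulAut V) (m : ℕ) (v : V) :
    (al p k φ ^ m) (Additive.ofMul v) =
      Additive.ofMul (φ (Multiplicative.ofAdd ((m : ℕ) : ZMod (p ^ (k + 1)))) v) := by
  induction m with
  | zero => simp
  | succ m ih =>
    rw [pow_succ', Module.End.mul_apply, ih, al_apply, Nat.cast_succ,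
      add_comm (m : ZMod (p ^ (k + 1))) 1, ofAdd_add, map_mul, MulAut.mul_apply]

/-- the ring homomorphism from `ℤ[ω]` -/
noncomputable def theta (φ : Multiplicative (ZMod (p ^ (k + 1))) →* MulAut V)
    (hφ : ∀ v : V, ∏ i ∈ Finset.range p,
      φ (Multiplicative.ofAdd ((i * p ^ k : ℕ) : ZMod (p ^ (k + 1)))) v = 1) :
    Cy p k →+* Module.End ℤ (Additive V) :=
  Ideal.Quotient.lift (Ideal.span {cyclotomic (p ^ (k + 1)) ℤ})
    (aeval (al p k φ) : ℤ[X] →ₐ[ℤ] Module.End ℤ (Additive V)).toRingHom (by
      intro a ha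
      obtain ⟨b, rfl⟩ := Ideal.mem_span_singleton'.1 ha
      show aeval (al p k φ) (b * cyclotomic (p ^ (k + 1)) ℤ) = 0
      rw [map_mul]
      have h : aeval (al p k φ) (cyclotomic (p ^ (k + 1)) ℤ) = 0 := by
        rw [cyclotomic_prime_pow_eq_geom_sum Fact.out, map_sum]
        apply LinearMap.ext
        intro v
        obtain ⟨v, rfl⟩ := Additive.ofMul.surjective v
        rw [LinearMap.sum_apply]
        have h1 : ∀ i ∈ Finset.range p, (aeval (al p k φ) ((X ^ p ^ k : ℤ[X]) ^ i))
            (Additive.ofMul v) = Additive.ofMul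
              (φ (Multiplicative.ofAdd ((i * p ^ k : ℕ) : ZMod (p ^ (k + 1)))) v) := by
          intro i _
          rw [← pow_mul, map_pow, aeval_X, al_pow, mul_comm]
        rw [Finset.sum_congr rfl h1, ← ofMul_prod, hφ]
        rfl
      rw [h, mul_zero])

theorem theta_rr_pow (φ : Multiplicative (ZMod (p ^ (k + 1))) →* MulAut V)
    (hφ : ∀ v : V, ∏ i ∈ Finset.range p,
      φ (Multiplicative.ofAdd ((i * p ^ k : ℕ) : ZMod (p ^ (k + 1)))) v = 1) (m : ℕ) (v : V) :
    theta p k φ hφ (rr p k ^ m) (Additive.ofMul v) =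
      Additive.ofMul (φ (Multiplicative.ofAdd ((m : ℕ) : ZMod (p ^ (k + 1)))) v) := by
  have h : theta p k φ hφ (rr p k) = al p k φ := by
    show aeval (al p k φ) (X : ℤ[X]) = _
    rw [aeval_X]
  rw [map_pow, h, al_pow]

theorem exists_model (φ : Multiplicative (ZMod (p ^ (k + 1))) →* MulAut V)
    (hφ : ∀ v : V, ∏ i ∈ Finset.range p,
      φ (Multiplicative.ofAdd ((i * p ^ k : ℕ) : ZMod (p ^ (k + 1)))) v = 1)
    (hV : k = 0 ∨ ∀ v : V, ∃ v' : V, v' ^ p = v) :
    ∃ (A : Type u) (_ : AddCommGroup A) (_ : Module (Cy p k) A),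
      (k = 0 ∨ ∀ a : A, ∃ b : A, p • b = a) ∧
      Nonempty (SemidirectProduct V (Multiplicative (ZMod (p ^ (k + 1)))) φ ≃* Fr p k A) := by
  letI inst : Module (Cy p k) (Additive V) := Module.compHom (Additive V) (theta p k φ hφ)
  have hsmul : ∀ (m : ℕ) (v : V), (rr p k ^ m) • (Additive.ofMul v) =
      Additive.ofMul (φ (Multiplicative.ofAdd ((m : ℕ) : ZMod (p ^ (k + 1)))) v) :=
    fun m v => theta_rr_pow p k φ hφ m v
  have hpos : 0 < p ^ (k + 1) := pow_pos (Fact.out : p.Prime).pos _
  haveI : NeZero (p ^ (k + 1)) := ⟨hpos.ne'⟩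
  refine ⟨Additive V, inferInstance, inst, ?_, ?_⟩
  · rcases hV with h | h
    · exact Or.inl h
    · right
      intro a
      obtain ⟨v, hv⟩ := h a.toMul
      exact ⟨Additive.ofMul v, by rw [← ofMul_pow, hv]; rfl⟩
  · let f : SemidirectProduct V (Multiplicative (ZMod (p ^ (k + 1)))) φ →* Fr p k (Additive V) :=
      MonoidHom.mk' (fun x => ⟨⟨Additive.ofMul x.left, rt p k ^ (Multiplicative.toAdd x.right).val⟩,
        Subgroup.mem_comap.2 (Subgroup.pow_mem _ (Subgroup.mem_zpowers _) _)⟩) (by
          intro x y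
          apply Subtype.ext
          apply Aff.ext
          · show Additive.ofMul (x * y).left = Additive.ofMul x.left +
              ((rt p k ^ (Multiplicative.toAdd x.right).val : (Cy p k)ˣ) : Cy p k) •
                Additive.ofMul y.left
            rw [Units.val_pow_eq_pow_val, rt_val, hsmul, ZMod.natCast_zmod_val,
              SemidirectProduct.mul_left, ofMul_mul]
            rfl
          · show rt p k ^ (Multiplicative.toAdd (x * y).right).val =
              rt p k ^ (Multiplicative.toAdd x.right).val *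
                rt p k ^ (Multiplicative.toAdd y.right).val
            rw [SemidirectProduct.mul_right, toAdd_mul, ZMod.val_add, ← pow_add,
              ← pow_eq_pow_mod _ (rt_pow p k)])
    refine ⟨MulEquiv.ofBijective f ⟨?_, ?_⟩⟩
    · intro x y h
      have h1 : Additive.ofMul x.left = Additive.ofMul y.left :=
        congrArg (fun z : Fr p k (Additive V) => (z : Aff (Cy p k) (Additive V)).v) h
      have h2 : rt p k ^ (Multiplicative.toAdd x.right).val =
          rt p k ^ (Multiplicative.toAdd y.right).val :=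
        congrArg (fun z : Fr p k (Additive V) => (z : Aff (Cy p k) (Additive V)).u) h
      have h3 := congrArg (fun z : (Cy p k)ˣ => (z : Cy p k)) h2
      simp only [Units.val_pow_eq_pow_val, rt_val] at h3
      have h4 := (prim_root p k).pow_inj (ZMod.val_lt _) (ZMod.val_lt _) h3
      have h5 : Multiplicative.toAdd x.right = Multiplicative.toAdd y.right :=
        ZMod.val_injective _ h4
      exact SemidirectProduct.ext h1 h5
    · rintro ⟨⟨a, u⟩, hu⟩
      obtain ⟨l, hl⟩ := Subgroup.mem_zpowers_iff.1 (Subgroup.mem_comap.1 hu)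
      refine ⟨⟨a.toMul, Multiplicative.ofAdd ((l : ℤ) : ZMod (p ^ (k + 1)))⟩, ?_⟩
      apply Subtype.ext
      apply Aff.ext
      · rfl
      · show rt p k ^ ((l : ℤ) : ZMod (p ^ (k + 1))).val = u
        have hl' : rt p k ^ l = u := hl
        rw [← hl', ← zpow_natCast, ZMod.val_intCast]
        conv_rhs => rw [← Int.emod_add_mul_ediv l ((p ^ (k + 1) : ℕ) : ℤ)]
        rw [zpow_add, zpow_mul, zpow_natCast (rt p k) (p ^ (k + 1)), rt_pow, one_zpow, mul_one]

end Pool.Agent.H258.AM.Frob
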