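import Pool.Agent.H258.AM.Core

/-!
# Invariance of `D` under the reductions of words
-/

set_option autoImplicit false

namespace Pool.Agent.H258.AM

open Monoid

variable {ι : Type*} {K : ι → Type*} {C : Type*} [∀ i, Group (K i)] [Group C]
variable {φ : ∀ i, C →* K i} {W : Type*} [AddCommMonoid W] {P : Cone φ W}

theorem right_same {w : List (Σ i, K i)} {i : ι} {x z : K i} {m : W}
    (h : D P (w ++ [⟨i, x⟩]) i z m) : D P w i (z * x⁻¹) m := by
  rcases right_inv h _ _ rfl with ⟨y, hy, hD⟩ | ⟨v1, v2, c, z1, m1, m2, hw, hD1, hD2, hz, hm⟩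
  · simp only [Sigma.mk.injEq, heq_eq_eq, true_and] at hy
    rw [hy]; exact hD
  · exact (hD2.concat hD1).cast hw.symm (by rw [hz, mul_assoc]) hm.symm

theorem left_same {v : List (Σ i, K i)} {i : ι} {y z : K i} {m : W}
    (h : D P (⟨i, y⟩ :: v) i z m) : D P v i (y⁻¹ * z) m := by
  rcases left_inv h _ _ rfl with ⟨x, hx, hD⟩ | ⟨v1, v2, c, z2, m1, m2, hw, hD1, hD2, hz, hm⟩
  · simp only [Sigma.mk.injEq, heq_eq_eq, true_and] at hx
    rw [hx]; exact hD
  · exact (hD2.concat hD1).cast hw.symm (by rw [hz, mul_assoc]) hm.symm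

/-- normal form of the inversion for the first letter -/
theorem left_split {k j : ι} {v : List (Σ i, K i)} {y : K j} {c : C} {m : W}
    (h : D P (⟨j, y⟩ :: v) k (φ k c) m) :
    ∃ w1 w2 e m1 m2, v = w1 ++ w2 ∧ D P w1 j (y⁻¹ * φ j e) m1 ∧ D P w2 k (φ k (e⁻¹ * c)) m2 ∧
      m = m1 + m2 := by
  rcases left_inv h _ _ rfl with ⟨x, hx, hD⟩ | ⟨v1, v2, e, z2, m1, m2, hw, hD1, hD2, hz, hm⟩
  · obtain ⟨rfl, hx⟩ := Sigma.mk.inj_iff.1 hx
    have hx := eq_of_heq hx
    subst hx
    exact ⟨v, [], c, m, 0, by simp, hD, (D.one j).cast rfl (by simp) rfl, (add_zero m).symm⟩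
  · have hz2 : z2 = φ k (e⁻¹ * c) := by rw [map_mul, map_inv, hz]; group
    subst hz2
    exact ⟨v1, v2, e, m1, m2, hw, hD1, hD2, hm⟩

/-- two adjacent letters of the same group can be multiplied -/
theorem D.merge {l : List (Σ i, K i)} {i : ι} {z : K i} {m : W} (h : D P l i z m) :
    ∀ (j : ι) (x y : K j) (u v : List (Σ i, K i)), l = u ++ ⟨j, x⟩ :: ⟨j, y⟩ :: v →
      D P (u ++ ⟨j, x * y⟩ :: v) i z m := by
  induction h with
  | nil h => intro j x y u v hl; simp at hl
  | @snoc w' i z' m x0 h ih =>
    intro j x y u v hl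
    rcases List.eq_nil_or_concat v with rfl | ⟨v0, b, rfl⟩
    · rw [show u ++ (⟨j, x⟩ : Σ i, K i) :: [⟨j, y⟩] = (u ++ [⟨j, x⟩]) ++ [⟨j, y⟩] by simp] at hl
      obtain ⟨rfl, h3⟩ := List.append_inj' hl rfl
      simp only [List.cons.injEq, and_true] at h3
      obtain ⟨rfl, h3⟩ := Sigma.mk.inj_iff.1 h3
      have h3 := eq_of_heq h3
      subst h3
      exact (D.snoc (x * x0) (right_same h)).cast rfl (by group) rfl
    · rw [List.concat_eq_append, show u ++ (⟨j, x⟩ : Σ i, K i) :: ⟨j, y⟩ :: (v0 ++ [b]) =
        (u ++ ⟨j, x⟩ :: ⟨j, y⟩ :: v0) ++ [b] by simp] at hl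
      obtain ⟨rfl, h3⟩ := List.append_inj' hl rfl
      simp only [List.cons.injEq, and_true] at h3
      subst h3
      exact (D.snoc x0 (ih j x y u v0 rfl)).cast (by simp) rfl rfl
  | @glue u1 v1 i k z1 c m n h1 h2 ih1 ih2 =>
    intro j x y u v hl
    rcases List.append_eq_append_iff.1 hl with ⟨s, hs1, hs2⟩ | ⟨s, hs1, hs2⟩
    · exact (D.glue h1 (ih2 j x y s v hs2)).cast (by rw [hs1, List.append_assoc]) rfl rfl
    · rcases s with _ | ⟨a, _ | ⟨b, s⟩⟩
      · rw [List.append_nil] at hs1
        rw [List.nil_append] at hs2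
        exact (D.glue h1 (ih2 j x y [] v (by rw [List.nil_append]; exact hs2.symm))).cast
          (by rw [hs1, List.nil_append]) rfl rfl
      · -- the split is between the two letters
        simp only [List.cons_append, List.nil_append, List.cons.injEq] at hs2
        obtain ⟨rfl, rfl⟩ := hs2
        subst hs1
        obtain ⟨w1, w2, e, n1, n2, hv, hD1, hD2, hn⟩ := left_split h2
        subst hv hn
        rcases right_inv h1 _ _ rfl with ⟨x', hx', hD⟩ |
          ⟨v3, v4, d, z0, m1, m2, hw, hD3, hD4, hz, hm⟩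
        · obtain ⟨rfl, hx'⟩ := Sigma.mk.inj_iff.1 hx'
          have hx' := eq_of_heq hx'
          subst hx'
          have := D.glue (hD1.concat (D.snoc (x * y) hD)) hD2
          refine this.cast (by simp) ?_ (by rw [add_assoc])
          rw [map_mul, map_inv]; group
        · subst hw hm
          have := D.glue (D.glue hD3 (((hD1.concat (D.snoc (x * y) hD4)).cast rfl
            (show _ = φ j (d * e) by rw [map_mul]; group) rfl))) hD2
          refine this.cast (by simp) ?_ (by simp only [add_assoc])
          rw [hz, map_mul, map_mul, map_inv]; group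
      · simp only [List.cons_append, List.cons.injEq] at hs2
        obtain ⟨rfl, rfl, rfl⟩ := hs2
        exact (D.glue (ih1 j x y u s hs1) h2).cast (by simp) rfl rfl

/-- a trivial letter can be deleted -/
theorem D.delete {l : List (Σ i, K i)} {i : ι} {z : K i} {m : W} (h : D P l i z m) :
    ∀ (j : ι) (u v : List (Σ i, K i)), l = u ++ ⟨j, 1⟩ :: v → D P (u ++ v) i z m := by
  induction h with
  | nil h => intro j u v hl; simp at hl
  | @snoc w' i z' m x0 h ih =>
    intro j u v hl
    rcases List.eq_nil_or_concat v with rfl | ⟨v0, b, rfl⟩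
    · obtain ⟨rfl, h3⟩ := List.append_inj' hl rfl
      simp only [List.cons.injEq, and_true] at h3
      obtain ⟨rfl, h3⟩ := Sigma.mk.inj_iff.1 h3
      have h3 := eq_of_heq h3
      subst h3
      exact h.cast (by simp) (mul_one _).symm rfl
    · rw [List.concat_eq_append, show u ++ (⟨j, 1⟩ : Σ i, K i) :: (v0 ++ [b]) =
        (u ++ ⟨j, 1⟩ :: v0) ++ [b] by simp] at hl
      obtain ⟨rfl, h3⟩ := List.append_inj' hl rfl
      simp only [List.cons.injEq, and_true] at h3
      subst h3
      exact (D.snoc x0 (ih j u v0 rfl)).cast (by simp) rfl rfl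
  | @glue u1 v1 i k z1 c m n h1 h2 ih1 ih2 =>
    intro j u v hl
    rcases List.append_eq_append_iff.1 hl with ⟨s, hs1, hs2⟩ | ⟨s, hs1, hs2⟩
    · exact (D.glue h1 (ih2 j s v hs2)).cast (by rw [hs1, List.append_assoc]) rfl rfl
    · rcases s with _ | ⟨a, s⟩
      · rw [List.append_nil] at hs1
        rw [List.nil_append] at hs2
        exact (D.glue h1 (ih2 j [] v (by rw [List.nil_append]; exact hs2.symm))).cast
          (by rw [hs1, List.nil_append]) rfl rfl
      · simp only [List.cons_append, List.cons.injEq] at hs2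
        obtain ⟨rfl, rfl⟩ := hs2
        exact (D.glue (ih1 j u s hs1) h2).cast (by simp) rfl rfl

/-- a letter of `C` can be considered in another group -/
theorem D.switch {l : List (Σ i, K i)} {i : ι} {z : K i} {m : W} (h : D P l i z m) :
    ∀ (j k : ι) (c : C) (u v : List (Σ i, K i)), l = u ++ ⟨j, φ j c⟩ :: v →
      D P (u ++ ⟨k, φ k c⟩ :: v) i z m := by
  induction h with
  | nil h => intro j k c u v hl; simp at hl
  | @snoc w' i z' m x0 h ih =>
    intro j k c u v hl
    rcases List.eq_nil_or_concat v with rfl | ⟨v0, b, rfl⟩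
    · obtain ⟨rfl, h3⟩ := List.append_inj' hl rfl
      simp only [List.cons.injEq, and_true] at h3
      obtain ⟨rfl, h3⟩ := Sigma.mk.inj_iff.1 h3
      have h3 := eq_of_heq h3
      subst h3
      exact (D.glue h (D.letter (φ k c))).cast rfl rfl (add_zero _)
    · rw [List.concat_eq_append, show u ++ (⟨j, φ j c⟩ : Σ i, K i) :: (v0 ++ [b]) =
        (u ++ ⟨j, φ j c⟩ :: v0) ++ [b] by simp] at hl
      obtain ⟨rfl, h3⟩ := List.append_inj' hl rfl
      simp only [List.cons.injEq, and_true] at h3
      subst h3
      exact (D.snoc x0 (ih j k c u v0 rfl)).cast (by simp) rfl rfl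
  | @glue u1 v1 i k' z1 c' m n h1 h2 ih1 ih2 =>
    intro j k c u v hl
    rcases List.append_eq_append_iff.1 hl with ⟨s, hs1, hs2⟩ | ⟨s, hs1, hs2⟩
    · exact (D.glue h1 (ih2 j k c s v hs2)).cast (by rw [hs1, List.append_assoc]) rfl rfl
    · rcases s with _ | ⟨a, s⟩
      · rw [List.append_nil] at hs1
        rw [List.nil_append] at hs2
        exact (D.glue h1 (ih2 j k c [] v (by rw [List.nil_append]; exact hs2.symm))).cast
          (by rw [hs1, List.nil_append]) rfl rfl
      · simp only [List.cons_append, List.cons.injEq] at hs2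
        obtain ⟨rfl, rfl⟩ := hs2
        exact (D.glue (ih1 j k c u s hs1) h2).cast (by simp) rfl rfl

/-! ### reduction of words of value one -/

/-- the value of a word in the amalgamated product -/
def val (φ : ∀ i, C →* K i) (l : List (Σ i, K i)) : PushoutI φ :=
  (l.map fun a => PushoutI.of a.1 a.2).prod

theorem exists_adjacent {A : Type*} {R : A → A → Prop} (l : List A) (h : ¬ l.IsChain R) :
    ∃ u a b v, l = u ++ a :: b :: v ∧ ¬ R a b := by
  induction l with
  | nil => exact absurd List.isChain_nil h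
  | cons a l ih =>
    cases l with
    | nil => exact absurd (List.isChain_singleton a) h
    | cons b l =>
      by_cases hab : R a b
      · have : ¬ (b :: l).IsChain R := fun h' => h (List.isChain_cons_cons.2 ⟨hab, h'⟩)
        obtain ⟨u, a', b', v, h1, h2⟩ := ih this
        exact ⟨a :: u, a', b', v, by rw [h1]; rfl, h2⟩
      · exact ⟨[], a, b, l, rfl, hab⟩

theorem sound (hφ : ∀ i, Function.Injective (φ i)) :
    ∀ (n : ℕ) (l : List (Σ i, K i)), l.length = n → val φ l = 1 →
      ∀ {i : ι} {z : K i} {m : W}, D P l i z m → P.mem i z⁻¹ m := by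
  intro n
  induction n using Nat.strong_induction_on with
  | _ n IH =>
    intro l hn hl i z m hD
    by_cases h0 : l = []
    · exact nil_inv hD h0
    by_cases h1 : l.IsChain (fun a b => a.1 ≠ b.1)
    · by_cases h2 : ∀ a ∈ l, a.2 ≠ 1
      · -- a word in the free product
        let w : CoprodI.Word K := ⟨l, h2, h1⟩
        have hw : PushoutI.ofCoprodI (φ := φ) w.prod = 1 := by
          rw [← hl]
          show PushoutI.ofCoprodI ((l.map fun a => CoprodI.of a.2).prod) = _
          rw [map_list_prod, List.map_map, val]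
          congr 1
        have hr : ¬ PushoutI.Reduced φ w := by
          intro hr
          have := hr.eq_empty_of_mem_range hφ ⟨1, by rw [map_one, hw]⟩
          apply h0
          have h3 : w.toList = [] := by rw [this]; rfl
          exact h3
        have hr' : ∃ a ∈ l, a.2 ∈ (φ a.1).range := by
          by_contra hcon
          apply hr
          intro a ha hmem
          exact hcon ⟨a, ha, hmem⟩
        obtain ⟨⟨j, a⟩, ha, c, hc⟩ := hr'
        change φ j c = a at hc
        subst hc
        obtain ⟨u, v, rfl⟩ := List.append_of_mem ha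
        rcases List.eq_nil_or_concat u with rfl | ⟨u', b, rfl⟩
        · cases v with
          | nil =>
            -- a single letter
            exfalso
            have h3 : val φ [(⟨j, φ j c⟩ : Σ i, K i)] = PushoutI.base φ c := by
              simp [val, PushoutI.of_apply_eq_base]
            have h4 : PushoutI.base φ c = 1 := by rw [← h3]; exact hl
            have h5 : c = 1 := PushoutI.base_injective hφ (by rw [h4, map_one])
            exact h2 _ ha (by rw [h5]; exact map_one _)
          | cons b v =>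
            obtain ⟨k, b⟩ := b
            have hD1 := hD.switch j k c [] (⟨k, b⟩ :: v) rfl
            have hD2 := hD1.merge k (φ k c) b [] v rfl
            refine IH _ ?_ _ rfl ?_ hD2
            · rw [← hn]; simp
            · rw [← hl]
              simp [val, PushoutI.of_apply_eq_base]
              simp [mul_assoc, PushoutI.of_apply_eq_base]
        · obtain ⟨k, b⟩ := b
          rw [List.concat_eq_append] at *
          have e : (u' ++ [(⟨k, b⟩ : Σ i, K i)]) ++ ⟨j, φ j c⟩ :: v =
            (u' ++ [⟨k, b⟩]) ++ ⟨j, φ j c⟩ :: v := rfl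
          have hD1 := hD.switch j k c (u' ++ [⟨k, b⟩]) v rfl
          have hD2 := hD1.merge k b (φ k c) u' v (by simp)
          refine IH _ ?_ _ rfl ?_ hD2
          · rw [← hn]; simp
          · rw [← hl]
            simp [val, PushoutI.of_apply_eq_base]
            simp [mul_assoc, PushoutI.of_apply_eq_base]
      · push Not at h2
        obtain ⟨⟨j, a⟩, ha, ha1⟩ := h2
        change a = 1 at ha1
        subst ha1
        obtain ⟨u, v, rfl⟩ := List.append_of_mem ha
        refine IH _ ?_ _ rfl ?_ (hD.delete j u v rfl)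
        · rw [← hn]; simp
        · rw [← hl]; simp [val]
    · obtain ⟨u, ⟨j, x⟩, ⟨k, y⟩, v, rfl, hjk⟩ := exists_adjacent l h1
      have hjk : j = k := by simpa using hjk
      subst hjk
      refine IH _ ?_ _ rfl ?_ (hD.merge j x y u v rfl)
      · rw [← hn]; simp
      · rw [← hl]; simp [val, mul_assoc]

end Pool.Agent.H258.AM
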