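import Pool.Agent.H258.AM.Inv

/-!
# Amalgamated products preserve conservative inclusions
-/

set_option autoImplicit false

namespace Pool.Agent.H258.AM

open Monoid

universe u

/-- `f : G → H` reflects trivial products of `r` conjugacy classes: a product of `H`-conjugates of
the images of `r` elements of `G` is trivial only if a product of `G`-conjugates of these elements
is trivial. -/
def ConsAt (r : ℕ) {G H : Type*} [Group G] [Group H] (f : G →* H) : Prop :=
  ∀ g : Fin r → G,
    (∃ h : Fin r → H, (List.ofFn fun i => h i * f (g i) * (h i)⁻¹).prod = 1) →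
    ∃ x : Fin r → G, (List.ofFn fun i => x i * g i * (x i)⁻¹).prod = 1

/-- `z` is a product of conjugates of the elements of the list `L` -/
def IsProd {G : Type*} [Group G] (z : G) (L : List G) : Prop :=
  ∃ l : List (G × G), l.map Prod.snd = L ∧ (l.map fun p => p.1 * p.2 * p.1⁻¹).prod = z

section IsProd

variable {G : Type*} [Group G]

theorem isProd_iff_ofFn {H : Type*} [Group H] (f : G →* H) (z : H) {r : ℕ} (g : Fin r → G) :
    (∃ h : Fin r → H, (List.ofFn fun i => h i * f (g i) * (h i)⁻¹).prod = z) ↔
      ∃ l : List (H × G), l.map Prod.snd = List.ofFn g ∧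
        (l.map fun p => p.1 * f p.2 * p.1⁻¹).prod = z := by
  constructor
  · rintro ⟨h, hh⟩
    refine ⟨List.ofFn fun i => (h i, g i), ?_, ?_⟩
    · rw [List.map_ofFn]; rfl
    · rw [List.map_ofFn]; exact hh
  · rintro ⟨l, hl, hz⟩
    have hlen : l.length = r := by
      have := congrArg List.length hl
      simpa using this
    subst hlen
    have hg : g = fun i => (l.get i).2 := by
      apply List.ofFn_injective
      rw [← hl]
      conv_lhs => rw [← List.ofFn_get l]
      rw [List.map_ofFn]
      rfl
    subst hg
    refine ⟨fun i => (l.get i).1, ?_⟩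
    rw [← hz]
    conv_rhs => rw [← List.ofFn_get l]
    rw [List.map_ofFn]
    rfl

theorem IsProd.one : IsProd (1 : G) [] := ⟨[], rfl, rfl⟩

theorem IsProd.mul {x y : G} {L M : List G} (hx : IsProd x L) (hy : IsProd y M) :
    IsProd (x * y) (L ++ M) := by
  obtain ⟨l, rfl, rfl⟩ := hx
  obtain ⟨m, rfl, rfl⟩ := hy
  exact ⟨l ++ m, by simp, by simp⟩

theorem IsProd.conj {x : G} {L : List G} (hx : IsProd x L) (g : G) : IsProd (g * x * g⁻¹) L := by
  obtain ⟨l, rfl, rfl⟩ := hx
  induction l with
  | nil => exact ⟨[], rfl, by simp⟩
  | cons p l ih =>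
    obtain ⟨l', h1, h2⟩ := ih
    refine ⟨(g * p.1, p.2) :: l', by rw [List.map_cons, h1]; rfl, ?_⟩
    rw [List.map_cons, List.prod_cons, h2, List.map_cons, List.prod_cons]
    group

theorem IsProd.single (g : G) : IsProd g [g] := ⟨[(1, g)], rfl, by simp⟩

theorem IsProd.perm {L M : List G} (h : L.Perm M) : ∀ {z : G}, IsProd z L → IsProd z M := by
  induction h with
  | nil => exact fun h => h
  | cons x h ih =>
    rintro z ⟨l, hl, rfl⟩
    cases l with
    | nil => simp at hl
    | cons p l =>
      simp only [List.map_cons, List.cons.injEq] at hl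
      obtain ⟨rfl, hl⟩ := hl
      obtain ⟨l', h1, h2⟩ := ih ⟨l, hl, rfl⟩
      exact ⟨p :: l', by simp [h1], by simp [h2]⟩
  | swap x y L =>
    rintro z ⟨l, hl, rfl⟩
    rcases l with _ | ⟨p, _ | ⟨q, l⟩⟩
    · simp at hl
    · simp at hl
    · simp only [List.map_cons, List.cons.injEq] at hl
      obtain ⟨rfl, rfl, hl⟩ := hl
      refine ⟨(p.1 * p.2 * p.1⁻¹ * q.1, q.2) :: (p.1, p.2) :: l, by simp [hl], ?_⟩
      simp only [List.map_cons, List.prod_cons]
      group
  | trans _ _ ih1 ih2 => exact fun h => ih2 (ih1 h)

end IsProd

/-- the list version of a relation in `H` -/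
def HRel {G H : Type*} [Group G] [Group H] (f : G →* H) (L : List G) : Prop :=
  ∃ l : List (H × G), l.map Prod.snd = L ∧ (l.map fun p => p.1 * f p.2 * p.1⁻¹).prod = 1

theorem ConsAt.list {r : ℕ} {G H : Type*} [Group G] [Group H] {f : G →* H} (h : ConsAt r f)
    {L : List G} (hL : L.length = r) (hr : HRel f L) : IsProd (1 : G) L := by
  subst hL
  have h1 := (isProd_iff_ofFn f 1 L.get).2 (by rw [List.ofFn_get]; exact hr)
  have h2 := (isProd_iff_ofFn (MonoidHom.id G) 1 L.get).1 (h _ h1)
  rw [List.ofFn_get] at h2
  exact h2

theorem prod_one_of_snd {G : Type*} [Group G] (l : List (G × G)) (h : ∀ p ∈ l, p.2 = 1) :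
    (l.map fun p => p.1 * p.2 * p.1⁻¹).prod = 1 := by
  apply List.prod_eq_one
  intro x hx
  obtain ⟨p, hp, rfl⟩ := List.mem_map.1 hx
  rw [h p hp]; simp

theorem ConsAt.mono {r s : ℕ} {G H : Type*} [Group G] [Group H] {f : G →* H} (h : ConsAt r f)
    (hs : s ≤ r) {L : List G} (hL : L.length = s) (hr : HRel f L) : IsProd (1 : G) L := by
  obtain ⟨k, rfl⟩ := Nat.exists_eq_add_of_le hs
  have h1 : HRel f (L ++ List.replicate k 1) := by
    obtain ⟨l, hl1, hl2⟩ := hr
    refine ⟨l ++ List.replicate k (1, 1), by simp [hl1], ?_⟩
    rw [List.map_append, List.prod_append, hl2]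
    simp
  obtain ⟨m, hm1, hm2⟩ := h.list (by simp [hL]) h1
  obtain ⟨m1, m2, rfl, h3, h4⟩ := List.map_eq_append_iff.1 hm1
  refine ⟨m1, h3, ?_⟩
  rw [List.map_append, List.prod_append, prod_one_of_snd m2, mul_one] at hm2
  · exact hm2
  · intro p hp
    have : p.2 ∈ List.replicate k (1 : G) := by
      rw [← h4]; exact List.mem_map_of_mem hp
    exact List.eq_of_mem_replicate this

theorem ConsAt.injective {r : ℕ} (hr : 1 ≤ r) {G H : Type*} [Group G] [Group H] {f : G →* H}
    (h : ConsAt r f) : Function.Injective f := by
  rw [injective_iff_map_eq_one]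
  intro c hc
  obtain ⟨l, hl1, hl2⟩ := h.mono hr (L := [c]) rfl ⟨[(1, c)], rfl, by simp [hc]⟩
  rcases l with _ | ⟨p, _ | ⟨q, l⟩⟩
  · simp at hl1
  · simp only [List.map_cons, List.map_nil, List.cons.injEq, and_true] at hl1
    subst hl1
    simpa using hl2
  · simp at hl1

/-! ### the two cones -/

/-- the multiset version -/
def MProd {G : Type*} [Group G] (z : G) (M : Multiset G) : Prop :=
  ∃ L : List G, (L : Multiset G) = M ∧ IsProd z L

section MProd

variable {G : Type*} [Group G]

theorem MProd.one : MProd (1 : G) 0 := ⟨[], rfl, IsProd.one⟩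

theorem MProd.zero {z : G} (h : MProd z 0) : z = 1 := by
  obtain ⟨L, hL, l, h1, h2⟩ := h
  have : L = [] := by simpa using hL
  subst this
  have : l = [] := by simpa using h1
  subst this
  exact h2.symm

theorem MProd.mul {x y : G} {L M : Multiset G} (hx : MProd x L) (hy : MProd y M) :
    MProd (x * y) (L + M) := by
  obtain ⟨l, rfl, h1⟩ := hx
  obtain ⟨m, rfl, h2⟩ := hy
  exact ⟨l ++ m, by simp, h1.mul h2⟩

theorem MProd.conj {x : G} {L : Multiset G} (hx : MProd x L) (g : G) :
    MProd (g * x * g⁻¹) L := by
  obtain ⟨l, rfl, h1⟩ := hx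
  exact ⟨l, rfl, h1.conj g⟩

theorem MProd.list {A : Type*} (l : List A) (x : A → G) (M : A → Multiset G)
    (h : ∀ a ∈ l, MProd (x a) (M a)) : MProd (l.map x).prod (l.map M).sum := by
  induction l with
  | nil => exact MProd.one
  | cons a l ih =>
    rw [List.map_cons, List.prod_cons, List.map_cons, List.sum_cons]
    exact (h a List.mem_cons_self).mul (ih fun b hb => h b (List.mem_cons_of_mem _ hb))

end MProd

variable {G B C : Type u} [Group G] [Group B] [Group C]

/-- the products of conjugates in the second group -/
def BProd (jG : C →* G) (jB : C →* B) (z : B) (M : Multiset G) : Prop :=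
  ∃ l : List (B × C × Multiset G), (∀ p ∈ l, MProd (jG p.2.1) p.2.2 ∧ p.2.2 ≠ 0) ∧
    (l.map fun p => p.2.2).sum = M ∧ (l.map fun p => p.1 * jB p.2.1 * p.1⁻¹).prod = z

theorem length_le_card (l : List (B × C × Multiset G)) (h : ∀ p ∈ l, p.2.2 ≠ 0) :
    l.length ≤ Multiset.card (l.map fun p => p.2.2).sum := by
  induction l with
  | nil => simp
  | cons p l ih =>
    rw [List.map_cons, List.sum_cons, Multiset.card_add, List.length_cons]
    have h1 := ih fun q hq => h q (List.mem_cons_of_mem _ hq)
    have h2 : 0 < Multiset.card p.2.2 := Multiset.card_pos.2 (h p List.mem_cons_self)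
    omega

theorem mprod_of_list {jG : C →* G} (l : List (B × C × Multiset G))
    (hl : ∀ p ∈ l, MProd (jG p.2.1) p.2.2) (m : List (C × C))
    (hm : m.map Prod.snd = l.map fun p => p.2.1) :
    MProd (jG (m.map fun p => p.1 * p.2 * p.1⁻¹).prod) (l.map fun p => p.2.2).sum := by
  induction m generalizing l with
  | nil =>
    have : l = [] := by simpa using hm.symm
    subst this
    rw [List.map_nil, List.prod_nil, map_one]
    exact MProd.one
  | cons q m ih =>
    cases l with
    | nil => simp at hm
    | cons a l =>
      simp only [List.map_cons, List.cons.injEq] at hm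
      obtain ⟨hq, hm⟩ := hm
      rw [List.map_cons, List.prod_cons, List.map_cons, List.sum_cons, map_mul]
      refine MProd.mul ?_ (ih l (fun b hb => hl b (List.mem_cons_of_mem _ hb)) hm)
      rw [map_mul, map_mul, map_inv, hq]
      exact (hl a List.mem_cons_self).conj _

theorem BProd.toC {r : ℕ} {jG : C →* G} {jB : C →* B} (hB : ConsAt r jB) {c : C}
    {M : Multiset G} (hM : Multiset.card M + 1 ≤ r) (h : BProd jG jB (jB c) M) :
    MProd (jG c) M := by
  obtain ⟨l, hl, rfl, hz⟩ := h
  have hlen := length_le_card l fun p hp => (hl p hp).2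
  have key : ∃ m : List (C × C), m.map Prod.snd = c⁻¹ :: l.map (fun p => p.2.1) ∧
      (m.map fun p => p.1 * p.2 * p.1⁻¹).prod = 1 := by
    refine hB.mono (s := (c⁻¹ :: l.map (fun p => p.2.1)).length) ?_ rfl ?_
    · simp only [List.length_cons, List.length_map]; omega
    · refine ⟨(1, c⁻¹) :: l.map (fun p => (p.1, p.2.1)), by simp, ?_⟩
      rw [List.map_cons, List.prod_cons, List.map_map]
      have : ((fun p : B × C => p.1 * jB p.2 * p.1⁻¹) ∘
        fun p : B × C × Multiset G => (p.1, p.2.1)) =
        fun p => p.1 * jB p.2.1 * p.1⁻¹ := rfl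
      rw [this, hz]; simp
  obtain ⟨m, hm, hm1⟩ := key
  cases m with
  | nil => simp at hm
  | cons p m =>
    simp only [List.map_cons, List.cons.injEq] at hm
    obtain ⟨hp, hm⟩ := hm
    rw [List.map_cons, List.prod_cons, hp] at hm1
    have hc : c = p.1⁻¹ * (m.map fun p => p.1 * p.2 * p.1⁻¹).prod * p.1⁻¹⁻¹ := by
      have e := eq_inv_of_mul_eq_one_right hm1
      rw [e]; group
    rw [hc, map_mul, map_mul, map_inv jG p.1⁻¹]
    exact (mprod_of_list l (fun q hq => (hl q hq).1) m hm).conj _

theorem BProd.toOne {r : ℕ} {jG : C →* G} {jB : C →* B} (hB : ConsAt r jB)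
    {M : Multiset G} (hM : Multiset.card M ≤ r) (h : BProd jG jB 1 M) :
    MProd (1 : G) M := by
  obtain ⟨l, hl, rfl, hz⟩ := h
  have hlen := length_le_card l fun p hp => (hl p hp).2
  obtain ⟨m, hm, hm1⟩ : IsProd (1 : C) (l.map fun p => p.2.1) := by
    refine hB.mono (s := (l.map (fun p => p.2.1)).length) ?_ rfl ?_
    · rw [List.length_map]; omega
    · refine ⟨l.map (fun p => (p.1, p.2.1)), by simp, ?_⟩
      rw [List.map_map]
      exact hz
  have := mprod_of_list l (fun q hq => (hl q hq).1) m hm
  rwa [hm1, map_one] at this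

theorem BProd.one {jG : C →* G} {jB : C →* B} : BProd jG jB 1 0 := ⟨[], by simp, rfl, rfl⟩

theorem BProd.zero {jG : C →* G} {jB : C →* B} {z : B} (h : BProd jG jB z 0) : z = 1 := by
  obtain ⟨l, hl, h0, rfl⟩ := h
  have hlen := length_le_card l fun p hp => (hl p hp).2
  rw [h0] at hlen
  have : l = [] := by simpa using hlen
  subst this
  rfl

theorem BProd.mul {jG : C →* G} {jB : C →* B} {x y : B} {m n : Multiset G}
    (hx : BProd jG jB x m) (hy : BProd jG jB y n) : BProd jG jB (x * y) (m + n) := by
  obtain ⟨l, h1, rfl, rfl⟩ := hx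
  obtain ⟨l', h2, rfl, rfl⟩ := hy
  refine ⟨l ++ l', ?_, by simp, by simp⟩
  intro p hp
  rcases List.mem_append.1 hp with hp | hp
  · exact h1 p hp
  · exact h2 p hp

theorem BProd.conj {jG : C →* G} {jB : C →* B} {x : B} {m : Multiset G}
    (hx : BProd jG jB x m) (g : B) : BProd jG jB (g * x * g⁻¹) m := by
  obtain ⟨l, h1, rfl, rfl⟩ := hx
  refine ⟨l.map fun p => (g * p.1, p.2), ?_, ?_, ?_⟩
  · intro p hp
    obtain ⟨q, hq, rfl⟩ := List.mem_map.1 hp
    exact h1 q hq
  · rw [List.map_map]; rfl
  · rw [List.map_map]
    clear h1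
    induction l with
    | nil => simp
    | cons p l ih =>
      rw [List.map_cons, List.prod_cons, ih, List.map_cons, List.prod_cons]
      show g * p.1 * jB p.2.1 * (g * p.1)⁻¹ * _ = _
      group

theorem BProd.of {jG : C →* G} (hG : Function.Injective jG) (jB : C →* B) {c : C}
    {m : Multiset G} (h : MProd (jG c) m) : BProd jG jB (jB c) m := by
  by_cases hm : m = 0
  · subst hm
    have : c = 1 := hG (by rw [h.zero, map_one])
    subst this
    rw [map_one]
    exact BProd.one
  · refine ⟨[(1, c, m)], ?_, by simp, by simp⟩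
    intro p hp
    rw [List.mem_singleton] at hp
    subst hp
    exact ⟨h, hm⟩

/-- truncation of the weights at `r` -/
def Trunc {A : Type u} [Group A] (r : ℕ) (Q : A → Multiset G → Prop) (z : A)
    (M : Multiset G) : Prop :=
  Q z M ∨ r < Multiset.card M ∨ (Multiset.card M = r ∧ z ≠ 1)

theorem Trunc.mul {A : Type u} [Group A] {r : ℕ} (hr : 1 ≤ r) {Q : A → Multiset G → Prop}
    (h0 : ∀ z, Q z 0 → z = 1) (hm : ∀ {x y m n}, Q x m → Q y n → Q (x * y) (m + n))
    {x y : A} {m n : Multiset G} (hx : Trunc r Q x m) (hy : Trunc r Q y n) :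
    Trunc r Q (x * y) (m + n) := by
  rcases lt_trichotomy (Multiset.card (m + n)) r with h | h | h
  · rw [Multiset.card_add] at h
    left
    refine hm ?_ ?_
    · rcases hx with hx | hx | hx
      · exact hx
      · omega
      · omega
    · rcases hy with hx | hx | hx
      · exact hx
      · omega
      · omega
  · by_cases hxy : x * y = 1
    · left
      rw [Multiset.card_add] at h
      by_cases hm0 : m = 0
      · subst hm0
        have h1 : Q x 0 := by
          rcases hx with hx | hx | hx
          · exact hx
          · simp at hx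
          · rw [Multiset.card_zero] at hx; omega
        have hx1 := h0 x h1
        have h2 : Q y n := by
          rcases hy with hy | hy | hy
          · exact hy
          · rw [Multiset.card_zero] at h; omega
          · exfalso
            apply hy.2
            rw [hx1, one_mul] at hxy
            exact hxy
        exact hm h1 h2
      · by_cases hn0 : n = 0
        · subst hn0
          have h1 : Q y 0 := by
            rcases hy with hx | hx | hx
            · exact hx
            · simp at hx
            · rw [Multiset.card_zero] at hx; omega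
          have hx1 := h0 y h1
          have h2 : Q x m := by
            rcases hx with hy | hy | hy
            · exact hy
            · rw [Multiset.card_zero] at h; omega
            · exfalso
              apply hy.2
              rw [hx1, mul_one] at hxy
              exact hxy
          exact hm h2 h1
        · have h1 := Multiset.card_pos.2 hm0
          have h2 := Multiset.card_pos.2 hn0
          refine hm ?_ ?_
          · rcases hx with hx | hx | hx
            · exact hx
            · omega
            · omega
          · rcases hy with hx | hx | hx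
            · exact hx
            · omega
            · omega
    · exact Or.inr (Or.inr ⟨h, hxy⟩)
  · exact Or.inr (Or.inl h)

theorem Trunc.conj {A : Type u} [Group A] {r : ℕ} {Q : A → Multiset G → Prop}
    (hc : ∀ (g x : A) (m : Multiset G), Q x m → Q (g * x * g⁻¹) m)
    {x : A} {m : Multiset G} (hx : Trunc r Q x m) (g : A) : Trunc r Q (g * x * g⁻¹) m := by
  rcases hx with hx | hx | ⟨h1, h2⟩
  · exact Or.inl (hc g _ _ hx)
  · exact Or.inr (Or.inl hx)
  · refine Or.inr (Or.inr ⟨h1, ?_⟩)
    intro h
    exact h2 (conj_eq_one_iff.1 h)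

/-- the two groups as a family -/
def Fam (G B : Type u) : Bool → Type u
  | false => G
  | true => B

instance instFam (b : Bool) : Group (Fam G B b) :=
  match b with
  | false => inferInstanceAs (Group G)
  | true => inferInstanceAs (Group B)

/-- the two embeddings as a family -/
def famHom (jG : C →* G) (jB : C →* B) : ∀ b, C →* Fam G B b
  | false => jG
  | true => jB

/-- the membership predicates -/
def famMem (r : ℕ) (jG : C →* G) (jB : C →* B) : ∀ b, Fam G B b → Multiset G → Prop
  | false => Trunc (A := G) r (fun z M => MProd (G := G) z M)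
  | true => Trunc (A := B) r (fun z M => BProd jG jB z M)

/-- the cone of the amalgamated product -/
def cone {r : ℕ} (hr : 1 ≤ r) (jG : C →* G) (jB : C →* B) (hG : Function.Injective jG)
    (hB : ConsAt r jB) : Cone (famHom jG jB) (Multiset G) where
  mem := famMem r jG jB
  one := by
    intro b
    cases b with
    | false => exact Or.inl MProd.one
    | true => exact Or.inl BProd.one
  mul := by
    intro b x y m n hx hy
    cases b with
    | false => exact Trunc.mul (A := G) hr (fun z => MProd.zero) MProd.mul hx hy
    | true => exact Trunc.mul (A := B) hr (fun z => BProd.zero) BProd.mul hx hy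
  conj := by
    intro b x m g hx
    cases b with
    | false =>
      exact Trunc.conj (A := G) (Q := fun z M => MProd (G := G) z M)
        (fun g _ _ h => MProd.conj h g) hx g
    | true =>
      exact Trunc.conj (A := B) (Q := fun z M => BProd jG jB z M)
        (fun g _ _ h => BProd.conj h g) hx g
  compat := by
    have hBi := hB.injective hr
    intro b b' c m h
    cases b with
    | false =>
      cases b' with
      | false => exact h
      | true =>
        rcases (h : Trunc (A := G) r (fun z M => MProd (G := G) z M) (jG c) m) with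
          h | h | ⟨h1, h2⟩
        · exact Or.inl (BProd.of hG jB h)
        · exact Or.inr (Or.inl h)
        · refine Or.inr (Or.inr ⟨h1, ?_⟩)
          intro h3
          apply h2
          have h5 : c = 1 := hBi (h3.trans (map_one jB).symm)
          subst h5
          exact map_one jG
    | true =>
      cases b' with
      | false =>
        have h' : Trunc (A := B) r (fun z M => BProd jG jB z M) (jB c) m := h
        rcases lt_trichotomy (Multiset.card m) r with hm | hm | hm
        · rcases h' with h | h | h
          · exact Or.inl (BProd.toC hB (by omega) h)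
          · omega
          · omega
        · by_cases hc : c = 1
          · subst hc
            rcases h' with h | h | h
            · rw [map_one] at h
              left
              have := BProd.toOne hB hm.le h
              rw [← map_one jG] at this
              exact this
            · omega
            · exact absurd (map_one jB) h.2
          · refine Or.inr (Or.inr ⟨hm, ?_⟩)
            intro h3
            exact hc (hG (h3.trans (map_one jG).symm))
        · exact Or.inr (Or.inl hm)
      | true => exact h

/-- the inverse word -/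
def invW {ι : Type*} {K : ι → Type*} [∀ i, Group (K i)] (l : List (Σ i, K i)) : List (Σ i, K i) :=
  (l.map fun a => ⟨a.1, a.2⁻¹⟩).reverse

section words

variable {ι : Type*} {K : ι → Type*} {C' : Type*} [∀ i, Group (K i)] [Group C']
variable {φ : ∀ i, C' →* K i} {W : Type*} [AddCommMonoid W] {P : Cone φ W}

theorem invW_cons (a : Σ i, K i) (l : List (Σ i, K i)) :
    invW (a :: l) = invW l ++ [⟨a.1, a.2⁻¹⟩] := by
  simp [invW]

theorem val_append (l l' : List (Σ i, K i)) : val φ (l ++ l') = val φ l * val φ l' := by
  simp [val]

theorem val_invW (l : List (Σ i, K i)) : val φ (invW l) = (val φ l)⁻¹ := by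
  induction l with
  | nil => simp [invW, val]
  | cons a l ih =>
    rw [invW_cons, val_append, ih]
    simp [val]

theorem exists_word (x : PushoutI φ) [Nonempty ι] : ∃ l : List (Σ i, K i), val φ l = x := by
  induction x using PushoutI.induction_on with
  | of i g => exact ⟨[⟨i, g⟩], by simp [val]⟩
  | base h =>
    obtain ⟨i⟩ := ‹Nonempty ι›
    exact ⟨[⟨i, φ i h⟩], by simp [val, PushoutI.of_apply_eq_base]⟩
  | mul x y hx hy =>
    obtain ⟨l, rfl⟩ := hx
    obtain ⟨l', rfl⟩ := hy
    exact ⟨l ++ l', val_append _ _⟩

theorem D.to_one {v : List (Σ i, K i)} {i : ι} {m : W} (h : D P v i 1 m) (j : ι) :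
    D P v j 1 m := by
  have h1 : D P v i (φ i 1) m := h.cast rfl (map_one _).symm rfl
  exact (h1.trans' j).cast rfl (map_one _) rfl

theorem D.conjW {v : List (Σ i, K i)} {i : ι} {m : W} (h : D P v i 1 m)
    (l : List (Σ i, K i)) : ∀ j : ι, D P (l ++ v ++ invW l) j 1 m := by
  induction l with
  | nil => intro j; exact (h.to_one j).cast (by simp [invW]) rfl rfl
  | cons a l ih =>
    intro j
    have h1 := D.snoc (a.2)⁻¹ ((ih a.1).cons a.2)
    have h2 : D P (a :: l ++ v ++ invW (a :: l)) a.1 1 m :=
      h1.cast (by rw [invW_cons]; simp) (by group) rfl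
    exact h2.to_one j

end words

/-- the embedding of `G` in the amalgamated product -/
def embG (jG : C →* G) (jB : C →* B) : G →* PushoutI (famHom jG jB) :=
  (PushoutI.of (φ := famHom jG jB) false : Fam G B false →* PushoutI (famHom jG jB))

/-- the embedding of `B` in the amalgamated product -/
def embB (jG : C →* G) (jB : C →* B) : B →* PushoutI (famHom jG jB) :=
  (PushoutI.of (φ := famHom jG jB) true : Fam G B true →* PushoutI (famHom jG jB))

theorem embG_eq_embB (jG : C →* G) (jB : C →* B) (c : C) :
    embG jG jB (jG c) = embB jG jB (jB c) :=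
  (PushoutI.of_apply_eq_base (famHom jG jB) false c).trans
    (PushoutI.of_apply_eq_base (famHom jG jB) true c).symm

/-- **Theorem.** If the homomorphism `C → B` reflects trivial products of `r` conjugacy classes,
then so does the embedding of `G` in the amalgamated product of `G` and `B` over `C`. -/
theorem consAt_of {r : ℕ} (jG : C →* G) (jB : C →* B) (hG : Function.Injective jG)
    (hB : ConsAt r jB) : ConsAt r (embG jG jB) := by
  rcases Nat.eq_zero_or_pos r with rfl | hr
  · intro g _
    exact ⟨fun i => i.elim0, by simp⟩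
  have hinj : ∀ b, Function.Injective (famHom jG jB b) := by
    intro b
    cases b with
    | false => exact hG
    | true => exact hB.injective hr
  intro g hh
  obtain ⟨l, hl, hz⟩ := (isProd_iff_ofFn (embG jG jB) 1 g).1 hh
  -- the word
  have key : ∀ l : List (PushoutI (famHom jG jB) × G), ∃ w : List (Σ b, Fam G B b),
      val (famHom jG jB) w =
        (l.map fun p => p.1 * embG jG jB p.2 * p.1⁻¹).prod ∧
      D (cone hr jG jB hG hB) w false 1 ((l.map Prod.snd : List G) : Multiset G) := by
    intro l
    induction l with
    | nil => exact ⟨[], rfl, D.one _⟩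
    | cons p l ih =>
      obtain ⟨w, h1, h2⟩ := ih
      obtain ⟨v, hv⟩ := exists_word (φ := famHom jG jB) p.1
      refine ⟨(v ++ [⟨false, p.2⟩] ++ invW v) ++ w, ?_, ?_⟩
      · rw [val_append, val_append, val_append, val_invW, hv, h1, List.map_cons, List.prod_cons]
        have h6 : val (famHom jG jB) ([⟨false, p.2⟩] : List (Σ b, Fam G B b)) =
            embG jG jB p.2 := by
          rw [val, List.map_cons, List.map_nil, List.prod_singleton]
          rfl
        rw [h6]
      · have h3 : D (cone hr jG jB hG hB) ([⟨false, p.2⟩] : List (Σ b, Fam G B b)) false 1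
            ({p.2} : Multiset G) := by
          have h4 : D (cone hr jG jB hG hB) ([] : List (Σ b, Fam G B b)) false
              ((p.2 : Fam G B false)⁻¹) ({p.2} : Multiset G) := by
            have h7 : MProd ((p.2⁻¹)⁻¹) ({p.2} : Multiset G) := by
              rw [inv_inv]
              exact ⟨[p.2], rfl, IsProd.single _⟩
            exact D.nil (Or.inl h7)
          exact (D.snoc (p.2 : Fam G B false) h4).cast rfl (inv_mul_cancel _) rfl
        have h5 := h2.concat (h3.conjW v false)
        refine h5.cast rfl (one_mul _) ?_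
        simp
  obtain ⟨w, h1, h2⟩ := key l
  rw [hz] at h1
  have h3 := sound hinj _ w rfl h1 h2
  rw [inv_one] at h3
  have hcard : Multiset.card ((l.map Prod.snd : List G) : Multiset G) = r := by
    rw [hl]; simp
  have h3' : MProd (1 : G) ((l.map Prod.snd : List G) : Multiset G) := by
    rcases (h3 : Trunc (A := G) r (fun z M => MProd (G := G) z M) 1 _) with h | h | h
    · exact h
    · omega
    · exact absurd rfl h.2
  obtain ⟨L, hL, hP⟩ := h3'
  have hperm : L.Perm (l.map Prod.snd) := Multiset.coe_eq_coe.1 hL
  have h4 := IsProd.perm hperm hP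
  rw [hl] at h4
  exact (isProd_iff_ofFn (MonoidHom.id G) 1 g).2 h4

end Pool.Agent.H258.AM
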